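import Pool.Agent.P.MP_119182_lc.GP.Iface
import Pool.Agent.P.MP_119182_lc.NU.Avg

/-! The average over the shifts of the weight of the cells that separate two keys. -/

set_option autoImplicit false

namespace Pool.Agent.P.MP_119182_lc.GP

open Finset
open scoped Classical

namespace AVGx

/-- The tail sum of `k ^ 4 / 2 ^ k`, scaled. -/
def g (k : ℕ) : ℕ := 2 * k ^ 4 + 8 * k ^ 3 + 36 * k ^ 2 + 104 * k + 150

theorem g_step (k : ℕ) : g (k + 1) + 2 * k ^ 4 = 2 * g k := by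
  simp only [g]
  ring

theorem g_le {l : ℕ} (hl : 1 ≤ l) : g (l + 1) ≤ 598 * l ^ 5 := by
  have h1 : l ≤ l ^ 5 := by simpa using Nat.pow_le_pow_right hl (show 1 ≤ 5 by norm_num)
  have h2 : l ^ 2 ≤ l ^ 5 := Nat.pow_le_pow_right hl (by norm_num)
  have h3 : l ^ 3 ≤ l ^ 5 := Nat.pow_le_pow_right hl (by norm_num)
  have h4 : l ^ 4 ≤ l ^ 5 := Nat.pow_le_pow_right hl (by norm_num)
  have h5 : g (l + 1) = 2 * l ^ 4 + 16 * l ^ 3 + 72 * l ^ 2 + 208 * l + 300 := by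
    simp only [g]
    ring
  omega

theorem head (a : ℕ → ℕ) (M l : ℕ) (h1 : ∀ k, a k ≤ M) :
    ∑ k ∈ range (l + 1), k ^ 4 * a k ≤ M * l ^ 5 := by
  rw [sum_range_succ']
  have h2 := sum_le_card_nsmul (range l) (fun k => (k + 1) ^ 4 * a (k + 1)) (l ^ 4 * M)
    fun k hk => Nat.mul_le_mul (Nat.pow_le_pow_left (mem_range.1 hk) 4) (h1 _)
  rw [card_range, smul_eq_mul] at h2
  have h3 : l * (l ^ 4 * M) = M * l ^ 5 := by ring
  simp only [ne_eq, OfNat.ofNat_ne_zero, not_false_eq_true, zero_pow, zero_mul, add_zero]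
  omega

theorem tail (a : ℕ → ℕ) (M l : ℕ) (h1 : ∀ k, a k ≤ M)
    (h2 : ∀ r, 2 ^ (r + 1) * a (l + 1 + r) ≤ M) (r : ℕ) :
    2 ^ (r + 1) * ∑ k ∈ range (l + 1 + r), k ^ 4 * a k + M * g (l + 1 + r) ≤
      2 ^ (r + 1) * (M * l ^ 5) + 2 ^ r * (M * g (l + 1)) := by
  induction r with
  | zero =>
    have := head a M l h1
    simp only [add_zero, zero_add, pow_one, pow_zero, one_mul]
    omega
  | succ r ih =>
    rw [← add_assoc, sum_range_succ]
    have h3 := Nat.mul_le_mul_left ((l + 1 + r) ^ 4) (h2 r)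
    have h4 : M * g (l + 1 + r + 1) + 2 * ((l + 1 + r) ^ 4 * M) = 2 * (M * g (l + 1 + r)) := by
      rw [mul_left_comm 2 M, ← g_step]
      ring
    have h5 : 2 ^ (r + 1 + 1) * (∑ k ∈ range (l + 1 + r), k ^ 4 * a k +
        (l + 1 + r) ^ 4 * a (l + 1 + r)) = 2 * (2 ^ (r + 1) * ∑ k ∈ range (l + 1 + r), k ^ 4 * a k) +
        2 * ((l + 1 + r) ^ 4 * (2 ^ (r + 1) * a (l + 1 + r))) := by ring
    have h6 : 2 ^ (r + 1 + 1) * (M * l ^ 5) = 2 * (2 ^ (r + 1) * (M * l ^ 5)) := by ring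
    have h7 : 2 ^ (r + 1) * (M * g (l + 1)) = 2 * (2 ^ r * (M * g (l + 1))) := by ring
    omega

theorem all (a : ℕ → ℕ) (M l : ℕ) (hl : 1 ≤ l) (h1 : ∀ k, a k ≤ M)
    (h2 : ∀ r, 2 ^ (r + 1) * a (l + 1 + r) ≤ M) (r : ℕ) :
    ∑ k ∈ range (l + 1 + r), k ^ 4 * a k ≤ M * (400 * l ^ 5) := by
  have h3 := tail a M l h1 h2 r
  have h4 := Nat.mul_le_mul_left (2 ^ r) (Nat.mul_le_mul_left M (g_le hl))
  refine Nat.le_of_mul_le_mul_left ?_ (show 0 < 2 ^ (r + 1) by positivity)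
  have h5 : 2 ^ (r + 1) * (M * l ^ 5) = 2 * (2 ^ r * (M * l ^ 5)) := by ring
  have h6 : 2 ^ r * (M * (598 * l ^ 5)) = 598 * (2 ^ r * (M * l ^ 5)) := by ring
  have h7 : 2 ^ (r + 1) * (M * (400 * l ^ 5)) = 800 * (2 ^ r * (M * l ^ 5)) := by ring
  omega

theorem dist_le (D σ : ℕ) : D ≤ 2 ^ (σ + (Nat.log 2 (D / 2 ^ σ + 1) + 1)) := by
  have h1 := Nat.lt_pow_succ_log_self (b := 2) (by norm_num) (D / 2 ^ σ + 1)
  have h2 := Nat.lt_mul_div_succ D (show 0 < 2 ^ σ by positivity)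
  rw [pow_add]
  exact h2.le.trans (Nat.mul_le_mul_left _ h1.le)

end AVGx

theorem p_AVG : S_AVG := by
  intro σ T y z
  set l := Nat.log 2 (Nat.dist y z / 2 ^ σ + 1) + 1 with hl
  have hD : Nat.dist y z ≤ 2 ^ (σ + l) := AVGx.dist_le _ _
  set c : ℕ → ℕ := fun j =>
    ∑ s ∈ range (2 ^ T), if (y + s) / 2 ^ j ≠ (z + s) / 2 ^ j then 1 else 0 with hc
  set a : ℕ → ℕ := fun k => if σ + k ≤ T then c (σ + k) else 0 with ha
  have h1 : ∀ k, a k ≤ 2 ^ T := fun k => by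
    simp only [ha]
    split_ifs
    · have := sum_le_card_nsmul (range (2 ^ T))
        (fun s => if (y + s) / 2 ^ (σ + k) ≠ (z + s) / 2 ^ (σ + k) then 1 else 0) 1
        fun s _ => by split_ifs <;> omega
      rwa [card_range, smul_eq_mul, mul_one] at this
    · exact Nat.zero_le _
  have h2 : ∀ r, 2 ^ (r + 1) * a (l + 1 + r) ≤ 2 ^ T := fun r => by
    simp only [ha]
    split_ifs with h
    · obtain ⟨e, he⟩ := Nat.exists_eq_add_of_le h
      have h3 := NU.Avg.split (pow_dvd_pow 2 h) y z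
      have h4 : 2 ^ T / 2 ^ (σ + (l + 1 + r)) = 2 ^ e := by
        rw [Nat.pow_div h two_pos]
        congr 1
        omega
      rw [h4] at h3
      calc 2 ^ (r + 1) * c (σ + (l + 1 + r)) ≤ 2 ^ (r + 1) * (2 ^ (σ + l) * 2 ^ e) :=
            Nat.mul_le_mul_left _ (h3.trans (Nat.mul_le_mul_right _ hD))
        _ = 2 ^ T := by
          rw [← pow_add, ← pow_add]
          congr 1
          omega
    · simp
  refine le_trans ?_ (AVGx.all a (2 ^ T) l (by omega) h1 h2 T)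
  rw [sum_comm]
  have h5 : ∀ j ∈ Ioo σ (T + 1), ∑ s ∈ range (2 ^ T),
      (if (y + s) / 2 ^ j ≠ (z + s) / 2 ^ j then (j - σ) ^ 4 else 0) =
      (j - σ) ^ 4 * a (j - σ) := fun j hj => by
    have hj' := mem_Ioo.1 hj
    have h6 : σ + (j - σ) = j := by omega
    simp only [ha, h6]
    rw [if_pos (by omega)]
    simp only [hc]
    rw [mul_sum]
    refine sum_congr rfl fun s _ => ?_
    split_ifs <;> simp
  rw [sum_congr rfl h5]
  have h7 : ∑ k ∈ range (l + 1 + T), k ^ 4 * a k =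
      ∑ j ∈ (range (l + 1 + T)).image (σ + ·), (j - σ) ^ 4 * a (j - σ) := by
    rw [sum_image fun u _ v _ h => by simpa using h]
    simp only [Nat.add_sub_cancel_left]
  rw [h7]
  refine sum_le_sum_of_subset fun j hj => ?_
  have hj' := mem_Ioo.1 hj
  exact mem_image.2 ⟨j - σ, mem_range.2 (by omega), by omega⟩

end Pool.Agent.P.MP_119182_lc.GP
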