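import Pool.Agent.P.MP_119182_lc.GP.Iface

/-! Step BORN: the number of cells that become free. -/

set_option autoImplicit false

namespace Pool.Agent.P.MP_119182_lc.GP

open Finset
open scoped Classical
open IT (Marks One)

namespace BORNx

theorem cells (j : ℕ) (L R : ℤ) : 2 ^ j * #(Ioo (L / 2 ^ j) (R / 2 ^ j)) ≤ (R - L).toNat := by
  have h : (0 : ℤ) < 2 ^ j := by positivity
  have h1 := Int.mul_ediv_add_emod L (2 ^ j)
  have h2 := Int.mul_ediv_add_emod R (2 ^ j)
  have h3 := Int.emod_lt_of_pos L h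
  have h4 := Int.emod_nonneg R h.ne'
  have h5 := Int.self_le_toNat (R - L)
  rw [Int.card_Ioo]
  rcases le_total 0 (R / 2 ^ j - L / 2 ^ j - 1) with k | k
  · zify
    rw [Int.toNat_of_nonneg k]
    linarith
  · rw [Int.toNat_of_nonpos k]
    exact Nat.zero_le _

theorem geo (a : ℕ → ℕ) (n : ℕ) (h : ∀ j, 2 ^ j * a j ≤ n) (σ J : ℕ) :
    ∑ j ∈ Ioo σ J, a j ≤ n := by
  have k : ∀ J, 2 ^ J * ∑ j ∈ range J, a (j + 1) + n ≤ 2 ^ J * n := fun J => by
    induction J with
    | zero => simp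
    | succ J ih =>
      have := h (J + 1)
      rw [sum_range_succ, mul_add, pow_succ] at *
      nlinarith
  have k1 : ∑ j ∈ range J, a (j + 1) ≤ n :=
    Nat.le_of_mul_le_mul_left ((Nat.le_add_right _ _).trans (k J)) (Nat.two_pow_pos J)
  refine le_trans ?_ k1
  rw [← sum_image (s := range J) (g := fun j => j + 1) (f := a)
    fun _ _ _ _ e => Nat.add_right_cancel e]
  refine sum_le_sum_of_subset fun j hj => ?_
  have := mem_Ioo.1 hj
  exact mem_image.2 ⟨j - 1, mem_range.2 (by omega), by omega⟩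

/-- The free cells of level `j`. -/
noncomputable def F (L R : ℤ) (W : Finset ℤ) (j : ℕ) : Finset ℤ :=
  (Ioo (L / 2 ^ j) (R / 2 ^ j)).filter (fr L R W j)

theorem mem_F {L R : ℤ} {W : Finset ℤ} {j : ℕ} {C : ℤ} : C ∈ F L R W j ↔ fr L R W j C :=
  ⟨fun h => (mem_filter.1 h).2, fun h => mem_filter.2 ⟨mem_Ioo.2 ⟨h.1, h.2.1⟩, h⟩⟩

theorem step (L R y : ℤ) (W W' : Finset ℤ) (j : ℕ) (h1 : W' ⊆ insert y W)
    (h2 : #(insert y W \ W') ≤ 1) :
    #(F L R W j) + ∑ z ∈ W \ W', (if fr L R W' j (z / 2 ^ j) then 1 else 0) ≤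
      #(F L R W' j) + if fr L R W j (y / 2 ^ j) then 1 else 0 := by
  have h3 : ∀ a ∈ W \ W', ∀ b ∈ W \ W', a = b := card_le_one.1
    ((card_le_card (sdiff_subset_sdiff (subset_insert _ _) Subset.rfl)).trans h2)
  rw [← card_filter, ← card_image_of_injOn (f := fun z => z / 2 ^ j)
    fun a ha b hb _ => h3 a (mem_filter.1 ha).1 b (mem_filter.1 hb).1, ← card_union_of_disjoint]
  · have e : (if fr L R W j (y / 2 ^ j) then 1 else 0) =
        #(({y / 2 ^ j} : Finset ℤ).filter (fr L R W j)) := by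
      rw [card_filter, sum_singleton]
    rw [e]
    refine (card_le_card fun C hC => ?_).trans (card_union_le _ _)
    rcases mem_union.1 hC with k | k
    · have k := mem_F.1 k
      by_cases e : C = y / 2 ^ j
      · exact mem_union_right _ (mem_filter.2 ⟨mem_singleton.2 e, k⟩)
      · refine mem_union_left _ (mem_F.2 ⟨k.1, k.2.1, fun z hz => ?_⟩)
        rcases mem_insert.1 (h1 hz) with rfl | hz
        · exact Ne.symm e
        · exact k.2.2 z hz
    · obtain ⟨z, hz, rfl⟩ := mem_image.1 k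
      exact mem_union_left _ (mem_F.2 (mem_filter.1 hz).2)
  · refine disjoint_left.2 fun C k k' => ?_
    obtain ⟨z, hz, rfl⟩ := mem_image.1 k'
    exact (mem_F.1 k).2.2 z (mem_sdiff.1 (mem_filter.1 hz).1).1 rfl

end BORNx

open BORNx in
theorem p_BORN : S_BORN := by
  refine ⟨cells, fun σ J L R m x c Z Q hM hO => ?_⟩
  have k : ∀ k, k ≤ m - 1 → ∑ t ∈ range k, born σ J L R Q t ≤
      ∑ j ∈ Ioo σ J, #(F L R (Q k) j) + ∑ t ∈ range k, #(hit σ J L R x Q t) := fun k hk => by
    induction k with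
    | zero => simp
    | succ k ih =>
      have h1 := ih (by omega)
      have h2 := sum_le_sum fun j (_ : j ∈ Ioo σ J) =>
        step L R (x (k + 1)) (Q k) (Q (k + 1)) j (hM.sub k (by omega)) (hO k (by omega))
      have e1 : born σ J L R Q k = ∑ j ∈ Ioo σ J, ∑ z ∈ Q k \ Q (k + 1),
          (if fr L R (Q (k + 1)) j (z / 2 ^ j) then 1 else 0) := by
        rw [born, sum_comm]
        exact sum_congr rfl fun z _ => card_filter _ _
      have e2 : #(hit σ J L R x Q k) = ∑ j ∈ Ioo σ J,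
          (if fr L R (Q k) j (x (k + 1) / 2 ^ j) then 1 else 0) := card_filter _ _
      rw [sum_add_distrib, sum_add_distrib, ← e1, ← e2] at h2
      rw [sum_range_succ, sum_range_succ]
      omega
  refine (k _ le_rfl).trans (Nat.add_le_add_right (geo _ _ (fun j => ?_) σ J) _)
  exact (Nat.mul_le_mul_left _ (card_filter_le _ _)).trans (cells j L R)

end Pool.Agent.P.MP_119182_lc.GP
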