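import Pool.Agent.P.MP_119182_lc.GP.Iface
import Pool.Agent.P.MP_119182_lc.IT.TCLS

/-! Step CLS. -/

set_option autoImplicit false

namespace Pool.Agent.P.MP_119182_lc.GP

open Finset
open scoped Classical
open NU (Run mr)

theorem p_CLS (hTWO : IT.S_TWO) : S_CLS := by
  intro it d Q hd hit t ht
  have mono := hit.mono t
  set N := (d.U t).filter fun u => ¬ (∃ z ∈ Q t, d.x t < z ∧ z < d.rp t u) ∧
    it t (d.lp (t + 1) u) ≠ it t (d.rp t u) with hN
  have hU : ∀ u ∈ d.U t, d.x t < u ∧ u < d.R ∧ u < d.rp t u ∧ d.lp (t + 1) u < u := fun u hu => by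
    have h1 := mem_Ioo.1 (mem_filter.1 (mem_filter.1 hu).1).1
    exact ⟨h1.1, h1.2, ((hd.tree t ht.le).bnd u ((hd.step t ht).mem.1.trans h1.1) h1.2).2.2.1,
      (hTWO d hd t ht u hu).1.2.1⟩
  have h1 : out it d t ≤ IT.up d Q t + #N := by
    unfold out IT.up
    refine le_trans (card_le_card fun u hu => ?_) (card_union_le _ _)
    obtain ⟨hu1, hu2⟩ := mem_filter.1 hu
    simp only [hN, mem_union, mem_filter]
    by_contra h
    exact h (.inr ⟨hu1, fun k => h (.inl ⟨hu1, k⟩), hu2⟩)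
  have h2 : #N ≤ 2 * #(N.image (it t)) := by
    refine card_le_mul_card_image N 2 fun B _ =>
      IT.CLSx.card_le_two fun a ha b hb c hc hab hbc => ?_
    obtain ⟨a1, a2⟩ := mem_filter.1 ha
    obtain ⟨b1, b2⟩ := mem_filter.1 hb
    obtain ⟨c1, c2⟩ := mem_filter.1 hc
    obtain ⟨a3, -⟩ := mem_filter.1 a1
    obtain ⟨b3, -, b4⟩ := mem_filter.1 b1
    obtain ⟨c3, -⟩ := mem_filter.1 c1
    have k1 := (hTWO d hd t ht a a3).2.2.2 b b3 hab
    have k2 := (hTWO d hd t ht b b3).2.2.2 c c3 hbc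
    have k3 := hU a a3
    have k4 := hU b b3
    have k5 := hU c c3
    have m1 := mono (show a ≤ d.lp (t + 1) b by omega)
    have m2 := mono (show d.lp (t + 1) b ≤ d.rp t b by omega)
    have m3 := mono (show d.rp t b ≤ c by omega)
    omega
  have h3 : ∀ u ∈ N, it t u ∉ insert (it t (d.x t)) (own it d Q t) →
      ∃ z, it t z = it t u ∧ ∀ v ∈ N, v < z := by
    intro u hu hn
    obtain ⟨u1, u2, -⟩ := mem_filter.1 hu
    rw [mem_insert, not_or] at hn
    have k1 := hU u u1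
    have k2 := mono k1.1.le
    obtain ⟨B, b1, b2, b3⟩ :
        ∃ B, it t (d.x t) < it t B ∧ B ≤ it t u ∧ ¬ lv it d.L d.R Q t B := by
      by_contra h
      exact hn.2 (mem_filter.2 ⟨mem_image_of_mem _ u1, by omega,
        fun B b1 b2 => by_contra fun b3 => h ⟨B, b1, b2, b3⟩⟩)
    have b4 : it t B ≤ it t u := (mono b2).trans_eq (hit.idem t u)
    have k4 := mono (hd.step t ht).mem.1.le
    have k5 := mono k1.2.1.le
    by_cases k6 : it t B < it t d.R
    · obtain ⟨z, z1, z2⟩ : ∃ z ∈ Q t, it t z = it t B := by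
        by_contra h
        exact b3 ⟨by omega, k6, fun z z1 z2 => h ⟨z, z1, z2⟩⟩
      have z3 : d.x t < z := mono.reflect_lt (by omega)
      have z4 : ∀ v ∈ N, v < z := fun v hv => by
        obtain ⟨v1, v2, -⟩ := mem_filter.1 hv
        exact (hU v v1).2.2.1.trans_le (not_lt.1 fun h => v2 ⟨z, z1, z3, h⟩)
      have z5 := mono (z4 u hu).le
      exact ⟨z, by omega, z4⟩
    · exact ⟨d.R, by omega, fun v hv => (hU v (mem_filter.1 hv).1).2.1⟩
  have h4 : #(N.image (it t) \ insert (it t (d.x t)) (own it d Q t)) ≤ 1 := by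
    refine card_le_one.2 fun a ha b hb => ?_
    obtain ⟨a1, a2⟩ := mem_sdiff.1 ha
    obtain ⟨b1, b2⟩ := mem_sdiff.1 hb
    obtain ⟨u, hu, rfl⟩ := mem_image.1 a1
    obtain ⟨v, hv, rfl⟩ := mem_image.1 b1
    obtain ⟨z, z1, z2⟩ := h3 u hu a2
    obtain ⟨y, y1, y2⟩ := h3 v hv b2
    have m1 := mono (z2 v hv).le
    have m2 := mono (y2 u hu).le
    omega
  have h5 := le_card_sdiff (insert (it t (d.x t)) (own it d Q t)) (N.image (it t))
  have h6 := card_insert_le (it t (d.x t)) (own it d Q t)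
  omega

end Pool.Agent.P.MP_119182_lc.GP
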