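import Pool.Agent.P.MP_119182_lc.GP.Iface

/-! Step CNT. -/

set_option autoImplicit false

namespace Pool.Agent.P.MP_119182_lc.GP

open Finset
open scoped Classical
open NU (Run mr)
open IT (Marks One mq conn Kill Lives)

namespace CNTx

lemma cnt (hITEM : S_ITEM) {σ J : ℕ} {L R : ℤ} (hJ : L / 2 ^ J = R / 2 ^ J) (W : Finset ℤ) (y : ℤ)
    (h : fr L R W (σ + 1) (y / 2 ^ (σ + 1))) :
    lev σ L R W y - σ ≤ #((Ioo σ J).filter fun j => fr L R W j (y / 2 ^ j)) := by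
  obtain ⟨i1, i2, -, i4, -⟩ := hITEM σ L R W
  rw [← Nat.card_Ioc]
  refine card_le_card fun j hj => ?_
  obtain ⟨h1, h2⟩ := mem_Ioc.1 hj
  have h3 : fr L R W j (y / 2 ^ j) := by
    rcases (i4 y).2.1 with e | e
    · have h4 : j = σ + 1 := by omega
      rw [h4]
      exact h
    · exact i1 _ _ _ h2 e
  exact mem_filter.2 ⟨mem_Ioo.2 ⟨h1, i2 _ _ _ hJ h3⟩, h3⟩

lemma few (hITEM : S_ITEM) (hFEW : S_FEW) {σ J : ℕ} {L R : ℤ} (hJ : L / 2 ^ J = R / 2 ^ J)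
    (W W' S : Finset ℤ) (y : ℤ)
    (hn : ¬ fr L R W (lev σ L R W' y + 1) (y / 2 ^ (lev σ L R W' y + 1)))
    (hS : ∀ B ∈ S, itm σ L R W B = B ∧ fr L R W (σ + 1) (B / 2 ^ (σ + 1)) ∧ near σ L R W' y B)
    (hz : ∀ z ∈ W, z ∈ W' ∨ (∀ B ∈ S, z < B) ∨ ∀ B ∈ S, B < z) :
    #S ≤ 2 * #((Ioo σ J).filter fun j => fr L R W' j (y / 2 ^ j)) := by
  rcases S.eq_empty_or_nonempty with rfl | ⟨B₀, h0⟩
  · simp
  refine (hFEW σ (lev σ L R W' y) L R y W S hn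
    (fun B hB => ⟨(hS B hB).1, (hS B hB).2.1, (hS B hB).2.2.2.1⟩) fun B hB B' hB' => ?_).trans
    (Nat.mul_le_mul_left _ (cnt hITEM hJ W' y (hS B₀ h0).2.2.1))
  obtain ⟨a1, a2, a3⟩ := (hS B hB).2.2.2.2
  obtain ⟨b1, b2, b3⟩ := (hS B' hB').2.2.2.2
  refine ⟨by omega, by omega, fun z hzW => ?_⟩
  rcases hz z hzW with h | h | h
  · have c1 := a3 z h
    have c2 := b3 z h
    omega
  · have c1 := h B hB
    have c2 := h B' hB'
    omega
  · have c1 := h B hB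
    have c2 := h B' hB'
    omega

end CNTx

theorem p_CNT (hITEM : S_ITEM) (hFEW : S_FEW) : S_CNT := by
  intro σ J L R m x c Z Q hJ _ hone t ht
  let N : Finset ℤ := (Ioo L R).filter fun B =>
    itm σ L R (Q t) B = B ∧ fr L R (Q t) (σ + 1) (B / 2 ^ (σ + 1))
  have hN : ∀ B ∈ N, itm σ L R (Q t) B = B ∧ fr L R (Q t) (σ + 1) (B / 2 ^ (σ + 1)) :=
    fun B hB => (mem_filter.1 hB).2
  let S0 : Finset ℤ := N.filter fun B => near σ L R (Q t) (x (t + 1)) B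
  let S1 : ℤ → Finset ℤ := fun y => N.filter fun B => y < B ∧ near σ L R (Q (t + 1)) y B
  let S2 : ℤ → Finset ℤ := fun y => N.filter fun B => B < y ∧ near σ L R (Q (t + 1)) y B
  have h0 : #S0 ≤ 2 * #(hit σ J L R x Q t) :=
    CNTx.few hITEM hFEW hJ (Q t) (Q t) S0 (x (t + 1))
      (fun h => by
        have := ((hITEM σ L R (Q t)).2.2.2.1 (x (t + 1))).2.2 _ h
        omega)
      (fun B hB => ⟨(hN B (mem_filter.1 hB).1).1, (hN B (mem_filter.1 hB).1).2,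
        (mem_filter.1 hB).2⟩) fun z hz => Or.inl hz
  have hy : ∀ y ∈ Q t \ Q (t + 1), ∀ z ∈ Q t, z ∈ Q (t + 1) ∨ z = y := fun y hy z hz => by
    by_cases h : z ∈ Q (t + 1)
    · exact Or.inl h
    · exact Or.inr (card_le_one.1 (hone t ht) z (mem_sdiff.2 ⟨mem_insert_of_mem hz, h⟩) y
        (mem_sdiff.2 ⟨mem_insert_of_mem (mem_sdiff.1 hy).1, (mem_sdiff.1 hy).2⟩))
  have h1 : ∀ y ∈ Q t \ Q (t + 1), #(S1 y ∪ S2 y) ≤
      4 * #((Ioo σ J).filter fun j => fr L R (Q (t + 1)) j (y / 2 ^ j)) := fun y hyQ => by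
    have hn : ¬ fr L R (Q t) (lev σ L R (Q (t + 1)) y + 1)
        (y / 2 ^ (lev σ L R (Q (t + 1)) y + 1)) := fun h => h.2.2 y (mem_sdiff.1 hyQ).1 rfl
    have a1 := CNTx.few hITEM hFEW hJ (Q t) (Q (t + 1)) (S1 y) y hn
      (fun B hB => ⟨(hN B (mem_filter.1 hB).1).1, (hN B (mem_filter.1 hB).1).2,
        (mem_filter.1 hB).2.2⟩) fun z hz => (hy y hyQ z hz).imp_right fun (e : z = y) =>
          Or.inl fun B hB => e.trans_lt (mem_filter.1 hB).2.1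
    have a2 := CNTx.few hITEM hFEW hJ (Q t) (Q (t + 1)) (S2 y) y hn
      (fun B hB => ⟨(hN B (mem_filter.1 hB).1).1, (hN B (mem_filter.1 hB).1).2,
        (mem_filter.1 hB).2.2⟩) fun z hz => (hy y hyQ z hz).imp_right fun (e : z = y) =>
          Or.inr fun B hB => (mem_filter.1 hB).2.1.trans_eq e.symm
    have a3 := card_union_le (S1 y) (S2 y)
    omega
  have hsub : ((Ioo L R).filter fun B => its σ L R Q t B = B ∧ lv (its σ L R Q) L R Q t B ∧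
      (KL σ L R x Q t B ∨ KR σ L R x Q t B)) ⊆
      S0 ∪ (Q t \ Q (t + 1)).biUnion fun y => S1 y ∪ S2 y := fun B hB => by
    obtain ⟨b1, b2, b3, b4⟩ := mem_filter.1 hB
    have hBN : B ∈ N := mem_filter.2 ⟨b1, b2, ((hITEM σ L R (Q t)).2.2.2.2.2.2 B).1 b3⟩
    rcases b4 with (⟨h, -⟩ | ⟨y, hyQ, h⟩) | (⟨h, -⟩ | ⟨y, hyQ, h⟩)
    · exact mem_union_left _ (mem_filter.2 ⟨hBN, h⟩)
    · exact mem_union_right _ (mem_biUnion.2 ⟨y, hyQ, mem_union_left _ (mem_filter.2 ⟨hBN, h⟩)⟩)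
    · exact mem_union_left _ (mem_filter.2 ⟨hBN, h⟩)
    · exact mem_union_right _ (mem_biUnion.2 ⟨y, hyQ, mem_union_right _ (mem_filter.2 ⟨hBN, h⟩)⟩)
  refine (card_le_card hsub).trans ((card_union_le _ _).trans (Nat.add_le_add h0 ?_))
  rw [born, mul_sum]
  exact card_biUnion_le.trans (sum_le_sum h1)

end Pool.Agent.P.MP_119182_lc.GP
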