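import Pool.Agent.P.MP_119182_lc.GP.Iface
import Pool.Agent.P.MP_119182_lc.IT.TDTH

/-! Step DTH. -/

set_option autoImplicit false

namespace Pool.Agent.P.MP_119182_lc.GP

open IT.DTHx in
theorem p_DTH : S_DTH := by
  intro m it l KL KR K hf
  refine ⟨dt m KL KR, sd m KL KR, lab l KL KR, ⟨fun t ht B _ => ⟨le_dt t B, dt_lt ht B⟩,
    fun t _ t' B h h1 h2 => ⟨(keep K h t' h1 h2).1, dt_eq h1 h2, ?_, (keep K h t' h1 h2).2⟩,
    fun t ht B B' h h' e => ⟨fun k => (E_iff e).1 (of_lab K t ht B B' h h' k),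
      fun k => lab_eq ((E_iff e).2 k)⟩,
    fun t ht B B' e h k => left K ht e h k, fun t ht B B' e h k => right K ht e h k⟩, ?_,
    fun t B ht _ e => ?_⟩
  · unfold sd
    rw [dt_eq h1 h2]
  · intro t _ t' B h hB h1
    induction t', h1 using Nat.le_induction with
    | base => exact fun _ _ => Iff.rfl
    | succ s hs ih =>
      intro k v
      have a := ih (by omega)
      obtain ⟨h3, h4, h5⟩ := notD (m := m) (KL := KL) (KR := KR) (B := B) hs k
      exact (a v).trans (hf s B h3 (keep K h s hs (by omega)).1 ((a B).1 hB) h4 h5 v)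
  · have := D_dt (m := m) (KL := KL) (KR := KR) t B
    rw [e] at this
    exact this.resolve_left (not_le.2 ht)

end Pool.Agent.P.MP_119182_lc.GP
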