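import Pool.Agent.P.MP_119182_lc.GP.Iface
import Pool.Agent.P.MP_119182_lc.IT.TEV

/-! Summing the frame bound over the labels. -/

set_option autoImplicit false

namespace Pool.Agent.P.MP_119182_lc.GP

open Finset
open scoped Classical

theorem p_EV (hIF : S_IF) (hFRAME : S_FRAME) : S_EV := by
  obtain ⟨C, hC⟩ := hIF
  refine ⟨C, fun K it d Q dt sd lab κ hs => ?_⟩
  set Fs := (range d.m ×ˢ Ioo d.L d.R).image fun p => lab p.1 p.2 with hFs
  have ho : ∀ t, ∀ B ∈ own it d Q t, ∀ B' ∈ own it d Q t, B ≤ B' →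
      IT.conn (lv it d.L d.R Q) t B B' := fun t B hB B' hB' _ v h1 h2 => by
    obtain ⟨h3, h4, -⟩ := mem_filter.1 hB
    obtain ⟨u, -, rfl⟩ := mem_image.1 h3
    exact (mem_filter.1 hB').2.2 v
      (h4.trans_le ((hs.items.idem t u).ge.trans (hs.items.mono t h1))) h2
  have hg : ∀ t < d.m, ∀ B ∈ own it d Q t, ∀ B' ∈ own it d Q t, lab t B = lab t B' := by
    intro t ht B hB B' hB'
    wlog h : B ≤ B' generalizing B B'
    · exact (this B' hB' B hB (le_of_not_ge h)).symm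
    exact (hs.lives.gap t ht _ _ (ho t B hB B' hB' h B le_rfl h) (ho t B hB B' hB' h B' h le_rfl)
      h).2 (ho t B hB B' hB' h)
  have h0 := sum_le_sum fun F (_ : F ∈ Fs) => hC K _ (hFRAME it d Q dt sd lab F κ hs)
  rw [sum_add_distrib, sum_add_distrib, ← mul_sum, ← mul_sum, ← mul_sum, ← mul_sum] at h0
  have h1 : ∑ t ∈ range d.m, #(ev it d Q sd lab κ t) =
      ∑ F ∈ Fs, ∑ t ∈ range d.m, #((frame it d Q sd dt lab F κ).ev t) := by
    rw [sum_comm]
    refine sum_congr rfl fun t ht => card_eq_sum_card_fiberwise fun B hB => ?_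
    have h := (mem_filter.1 (mem_coe.1 hB)).1
    have := ho t B h B h le_rfl B le_rfl le_rfl
    exact mem_image.2 ⟨(t, B), mem_product.2 ⟨ht, mem_Ioo.2
      ⟨(hs.items.mono t).reflect_lt this.1, (hs.items.mono t).reflect_lt this.2.1⟩⟩, rfl⟩
  have h2 : ∑ F ∈ Fs, ∑ t ∈ range d.m, #((frame it d Q sd dt lab F κ).met t) ≤ d.NR := by
    rw [sum_comm]
    refine sum_le_sum fun t ht => (IT.EVx.fib _ (lab t) Fs _ fun F B hB => ?_).trans
      (card_image_le (f := it t))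
    simp only [frame, met, if_pos (mem_range.1 ht)] at hB
    exact ⟨(mem_filter.1 hB).1, (mem_filter.1 hB).2.2.2⟩
  have h3 : ∑ F ∈ Fs, #((range d.m).filter fun t =>
      ((frame it d Q sd dt lab F κ).ev t).Nonempty) ≤ d.m := by
    refine (IT.EVx.fib (range d.m) (fun t => lab t (Classical.epsilon (· ∈ own it d Q t))) Fs _
      fun F t ht => ?_).trans (card_range _).le
    obtain ⟨ht, B, hB⟩ := mem_filter.1 ht
    obtain ⟨hB, e⟩ := mem_filter.1 hB
    have h := (mem_filter.1 hB).1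
    exact ⟨ht, (hg t (mem_range.1 ht) _
      (Classical.epsilon_spec (p := (· ∈ own it d Q t)) ⟨B, h⟩) B h).trans e⟩
  have h4 : ∑ F ∈ Fs, (frame it d Q sd dt lab F κ).inst ≤ inst it d Q dt := by
    refine IT.EVx.fib _ (fun p => lab p.1 p.2) Fs _ fun F p hp => ?_
    obtain ⟨h, e, e'⟩ := mem_filter.1 hp
    exact ⟨mem_filter.2 ⟨h, e.2.1, e.2.2.1, e'⟩, e.2.2.2.2⟩
  rw [h1]
  refine h0.trans (add_le_add (add_le_add ?_ ?_) ?_) <;> apply Nat.mul_le_mul_left <;> assumption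

end Pool.Agent.P.MP_119182_lc.GP
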