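import Pool.Agent.P.MP_119182_lc.GP.Iface

/-! Step FEW: at most two items of each level lie in one gap. -/

set_option autoImplicit false

namespace Pool.Agent.P.MP_119182_lc.GP

open Finset
open scoped Classical

namespace FEWx

theorem two (T : Finset ℤ) (h : ∀ a ∈ T, ∀ b ∈ T, ∀ c ∈ T, a < b → b < c → False) : #T ≤ 2 := by
  rcases T.eq_empty_or_nonempty with rfl | hT
  · simp
  · have hs : T ⊆ {T.min' hT, T.max' hT} := by
      intro b hb
      rw [mem_insert, mem_singleton]
      by_contra hc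
      rw [not_or] at hc
      exact h _ (T.min'_mem hT) b hb _ (T.max'_mem hT)
        (lt_of_le_of_ne (T.min'_le b hb) fun e => hc.1 e.symm)
        (lt_of_le_of_ne (T.le_max' b hb) hc.2)
    exact (card_le_card hs).trans card_le_two

theorem half (a : ℤ) (j : ℕ) : a / 2 ^ (j + 1) = a / 2 ^ j / 2 := by
  rw [pow_succ, Int.ediv_ediv_of_nonneg (by positivity)]

theorem mono (j : ℕ) {a b : ℤ} (h : a ≤ b) : a / 2 ^ j ≤ b / 2 ^ j :=
  Int.ediv_le_ediv (by positivity) h

theorem three {L R : ℤ} {W : Finset ℤ} {j : ℕ} {a b c : ℤ} (hab : a < b) (hbc : b < c)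
    (ea : a / 2 ^ j * 2 ^ j = a) (eb : b / 2 ^ j * 2 ^ j = b) (ec : c / 2 ^ j * 2 ^ j = c)
    (fa : fr L R W j (a / 2 ^ j)) (fc : fr L R W j (c / 2 ^ j)) (hb : btw L R W a c) :
    fr L R W (j + 1) (b / 2 ^ (j + 1)) := by
  have h1 : a / 2 ^ j < b / 2 ^ j :=
    lt_of_le_of_ne (mono j hab.le) fun e => hab.ne (by rw [← ea, e, eb])
  have h2 : b / 2 ^ j < c / 2 ^ j :=
    lt_of_le_of_ne (mono j hbc.le) fun e => hbc.ne (by rw [← eb, e, ec])
  obtain ⟨a1, a2, a3⟩ := fa
  obtain ⟨c1, c2, c3⟩ := fc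
  have hac := (hab.trans hbc).le
  refine ⟨?_, ?_, fun z hz => ?_⟩
  · rw [half, half]
    omega
  · rw [half, half]
    omega
  · rw [half, half]
    have := hb.2.2 z hz
    rw [min_eq_left hac, max_eq_right hac] at this
    have a4 := a3 z hz
    have c4 := c3 z hz
    rcases this with h | h
    · have := mono j h.le
      omega
    · have := mono j h.le
      omega

end FEWx

theorem p_FEW (hITEM : S_ITEM) : S_FEW := by
  intro σ δ L R y W S hy hS hb
  obtain ⟨h1, -, -, h4, -⟩ := hITEM σ L R W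
  have hf : ∀ B ∈ S, fr L R W (lev σ L R W B) (B / 2 ^ lev σ L R W B) := by
    intro B hB
    rcases (h4 B).2.1 with e | e
    · rw [e]
      exact (hS B hB).2.1
    · exact e
  have him : S.image (lev σ L R W) ⊆ Ioc σ δ := by
    intro j hj
    obtain ⟨B, hB, rfl⟩ := mem_image.1 hj
    refine mem_Ioc.2 ⟨(h4 B).1, ?_⟩
    by_contra hc
    refine hy ?_
    rw [← (hS B hB).2.2]
    exact h1 _ _ B (by omega) (hf B hB)
  have hc := card_le_mul_card_image (f := lev σ L R W) S 2 (by
    intro j _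
    refine FEWx.two _ fun a ha b hb' c hc hab hbc => ?_
    rw [mem_filter] at ha hb' hc
    have ea := (hS a ha.1).1
    have eb := (hS b hb'.1).1
    have ec := (hS c hc.1).1
    have fa := hf a ha.1
    have fc := hf c hc.1
    unfold itm at ea eb ec
    rw [ha.2] at ea fa
    rw [hb'.2] at eb
    rw [hc.2] at ec fc
    have := (h4 b).2.2 _ (FEWx.three hab hbc ea eb ec fa fc (hb a ha.1 c hc.1))
    rw [hb'.2] at this
    omega)
  have h2 := card_le_card him
  rw [Nat.card_Ioc] at h2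
  omega

end Pool.Agent.P.MP_119182_lc.GP
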