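import Pool.Agent.P.MP_119182_lc.GP.Iface

/-! Step FIN. -/

set_option autoImplicit false

namespace Pool.Agent.P.MP_119182_lc.GP

open Finset
open scoped Classical

namespace FINx

theorem pw (l : ℕ) : (l + 1) ^ 5 ≤ 32 * (l ^ 5 + 1) := by
  rcases Nat.eq_zero_or_pos l with rfl | h
  · norm_num
  · calc (l + 1) ^ 5 ≤ (2 * l) ^ 5 := Nat.pow_le_pow_left (by omega) _
      _ = 32 * l ^ 5 := by ring
      _ ≤ _ := by omega

theorem sm (m : ℕ) (f : ℕ → ℕ) :
    ∑ i ∈ range m, (f i + 1) ^ 5 ≤ 32 * (∑ i ∈ range m, f i ^ 5 + m) := by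
  induction m with
  | zero => simp
  | succ k ih =>
    rw [sum_range_succ, sum_range_succ]
    have := pw (f k)
    omega

theorem small {n m u : ℕ} (hn : 0 < n) :
    (u + Nat.size (2 ^ (u + 2)) + 1) * (n + 1 + m) ≤ 8 * ((u + 1) * (n + m)) := by
  rw [Nat.size_pow]
  calc _ ≤ (4 * (u + 1)) * (2 * (n + m)) := Nat.mul_le_mul (by omega) (by omega)
    _ = _ := by ring

end FINx

theorem p_FIN (hLINK : S_LINK) (hMARK : S_MARK) (hALGA : NU.S_ALGA) (hBRG : NU.S_BRG)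
    (hTURN : NU.S_TURN) : S_FIN := by
  obtain ⟨C, hC⟩ := hLINK
  refine ⟨12808 * C + 40, fun n u m T a y h2 h3 hy => ?_⟩
  rcases Nat.eq_zero_or_pos n with rfl | hn
  · rcases Nat.eq_zero_or_pos m with rfl | hm
    · simp [cost]
    · have := h3 0 hm
      omega
  obtain ⟨s, J, Z, Q, q1, q2, q3, q4⟩ := hMARK n u m a y h3 hy
  have k4 : n + m ≤ (u + 1) * (n + m) := Nat.le_mul_of_pos_left _ (by omega)
  have q5 := FINx.sm m fun i => Nat.log 2 (Nat.dist (a i) (y i) / 2 ^ u + 1)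
  have q6 := FINx.small (m := m) (u := u) hn
  generalize ∑ i ∈ range m, Nat.log 2 (Nat.dist (a i) (y i) / 2 ^ u + 1) ^ 5 = S at q5 ⊢
  generalize (u + 1) * (n + m) = A at k4 q6 ⊢
  have key : ∀ f : NU.Run, f.OK → f.L = s → f.R = (s : ℤ) + n + 1 → f.m = m →
      (f.x = fun i => (a i : ℤ) + s) →
      100 * (f.LamR + f.mir.LamR) ≤ f.NR + f.mir.NR + C * (12808 * (A + S)) := by
    intro f hf f1 f2 f3 f4
    have l1 := hC u J (2 ^ (u + 2)) Z f Q hf (by omega) (by rw [f1, f2]; exact q1)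
      (by rw [f1, f2, f3, f4]; exact q2) (by rw [f3, f4]; exact q3)
    have k1 : (f.R - f.L).toNat = n + 1 := by omega
    rw [k1, f1, f2, f3, f4] at l1
    refine l1.trans (Nat.add_le_add_left (Nat.mul_le_mul_left C ?_) _)
    omega
  obtain ⟨d, d1, d2, d3, d4, d5, d6, d7, d8⟩ := hBRG n m s T a h2 h3
  obtain ⟨e, e1, e2, e3, e4⟩ := hALGA d d5
  have t := hTURN d e d5 e2 e1 d6 d7
  obtain ⟨f1, f2, f3, f4⟩ := e1
  have l1 := key d d5 d1 d2 d3 d4
  have l2 := key e e2 (f1.trans d1) (f2.trans d2) (f3.trans d3) (f4.trans d4)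
  rw [f3, d3] at e3 e4
  have k3 : (d.R - d.L).toNat = n + 1 := by omega
  rw [k3, d3] at t
  have k5 : (12808 * C + 40) * (A + S) = C * (12808 * (A + S)) + 40 * (A + S) := by ring
  omega

end Pool.Agent.P.MP_119182_lc.GP
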