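import Pool.Agent.P.MP_119182_lc.GP.Iface
import Pool.Agent.P.MP_119182_lc.IT.TFRAME

/-! Step FRAME for items of variable size. -/

set_option autoImplicit false

namespace Pool.Agent.P.MP_119182_lc.GP

open Finset
open scoped Classical
open NU (Run mr)
open IT (Marks One mq conn Kill Lives)
open IT.FRAMEx (mem_P above below rise exists_rise)

namespace FRAMEx

variable {it : ℕ → ℤ → ℤ} {d : Run}

theorem lt_of {f : ℤ → ℤ} (hf : Monotone f) {a b : ℤ} (h : f a < f b) : a < b := by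
  by_contra hn
  exact absurd (hf (not_lt.1 hn)) (not_le.2 h)

theorem nopath (hd : d.OK) {f : ℤ → ℤ} (hf : Monotone f) {y B0 B1 : ℤ} {a b : ℕ} (hab : a ≤ b)
    (hb : b < d.m) (h0 : B0 ≤ f (d.lp a y)) (h1 : f (d.rp a y) ≤ B1)
    (hx : ∀ s, a ≤ s → s ≤ b → f (d.x s) < B0 ∨ B1 < f (d.x s)) : y ∉ d.P b := by
  have e : ∀ v : ℤ, IT.bl 0 v = v := fun v => by simp [IT.bl]
  refine IT.FRAMEx.nopath (σ := 0) (B0 := d.lp a y) (B1 := d.rp a y) hd hab hb (e _).ge (e _).le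
    fun s s1 s2 => ?_
  rw [e]
  exact (hx s s1 s2).imp (fun h => lt_of hf (h.trans_le h0)) fun h => lt_of hf (h1.trans_lt h)

variable {Q : ℕ → Finset ℤ} {dt : ℕ → ℤ → ℕ} {sd : ℕ → ℤ → Prop} {lab : ℕ → ℤ → ℕ × ℤ}
  {F : ℕ × ℤ}

/-- Alive in the frame. -/
def al (it : ℕ → ℤ → ℤ) (d : Run) (Q : ℕ → Finset ℤ) (sd : ℕ → ℤ → Prop)
    (lab : ℕ → ℤ → ℕ × ℤ) (F : ℕ × ℤ) (t : ℕ) (B : ℤ) : Prop :=
  t < d.m ∧ it t B = B ∧ lv it d.L d.R Q t B ∧ sd t B ∧ lab t B = F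

theorem mem_met (hi : Items it) {t : ℕ} {B : ℤ} : B ∈ met it d Q sd lab F t ↔
    (∃ y ∈ d.P t, it t y = B) ∧ al it d Q sd lab F t B := by
  unfold met al
  split_ifs with h
  · simp only [mem_filter, mem_image, h, true_and]
    refine ⟨fun ⟨⟨y, h1, h2⟩, h3⟩ => ⟨⟨y, h1, h2⟩, ?_, h3⟩, fun ⟨h1, _, h3⟩ => ⟨h1, h3⟩⟩
    rw [← h2, hi.idem]
  · simp only [notMem_empty, h, false_and, and_false]

variable (hs : Sys it d Q sd dt lab)
include hs

theorem fib {t t' : ℕ} {B : ℤ} (h : al it d Q sd lab F t B) (h1 : t ≤ t') (h2 : t' ≤ dt t B)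
    (v : ℤ) : it t v = B ↔ it t' v = B :=
  hs.fib t h.1 t' B h.2.2.1 h.2.1 h1 h2 v

theorem al_keep {t t' : ℕ} {B : ℤ} (h : al it d Q sd lab F t B) (h1 : t ≤ t')
    (h2 : t' ≤ dt t B) : al it d Q sd lab F t' B ∧ dt t' B = dt t B := by
  have a0 := (fib hs h h1 h2 B).1 h.2.1
  obtain ⟨a1, -, a2, a3, a4⟩ := h
  obtain ⟨b1, b2, b3, b4⟩ := hs.lives.keep t a1 t' B a2 h1 h2
  exact ⟨⟨h2.trans_lt (hs.lives.rng t a1 B a2).2, a0, b1, b3.2 a3, b4.trans a4⟩, b2⟩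

theorem al_mono {t : ℕ} {B B' : ℤ} (h : al it d Q sd lab F t B) (h' : al it d Q sd lab F t B')
    (hB : B ≤ B') : dt t B ≤ dt t B' :=
  (hs.lives.left t h.1 B B' hB ((hs.lives.gap t h.1 B B' h.2.2.1 h'.2.2.1 hB).1
    (h.2.2.2.2.trans h'.2.2.2.2.symm)) h'.2.2.2.1).2

theorem rep {t : ℕ} {B B'' v : ℤ} (h : al it d Q sd lab F t B) (h' : al it d Q sd lab F t B'')
    (h1 : B ≤ it t v) (h2 : it t v ≤ B'') : al it d Q sd lab F t (it t v) := by
  have c := (hs.lives.gap t h.1 B B'' h.2.2.1 h'.2.2.1 (h1.trans h2)).1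
    (h.2.2.2.2.trans h'.2.2.2.2.symm)
  have c' : conn (lv it d.L d.R Q) t (it t v) B'' := fun C k1 k2 => c C (h1.trans k1) k2
  have l := c _ h1 h2
  exact ⟨h.1, hs.items.idem t v, l, (hs.lives.left t h.1 _ B'' h2 c' h'.2.2.2.1).1,
    ((hs.lives.gap t h.1 _ B'' l h'.2.2.1 h2).2 c').trans h'.2.2.2.2⟩

theorem al_cvx {t t' : ℕ} {B B' B'' : ℤ} (h : al it d Q sd lab F t B)
    (h'' : al it d Q sd lab F t B'') (h1 : B ≤ B') (h2 : B' ≤ B'') (k1 : t ≤ t')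
    (k2 : t' ≤ dt t B) (h' : al it d Q sd lab F t' B') : al it d Q sd lab F t B' := by
  have a1 : B ≤ it t B' := h.2.1.ge.trans (hs.items.mono t h1)
  have a2 : it t B' ≤ B'' := (hs.items.mono t h2).trans h''.2.1.le
  have a := rep hs h h'' a1 a2
  have e := (fib hs a k1 (k2.trans (al_mono hs h a a1)) B').1 rfl
  rw [h'.2.1] at e
  rw [← e] at a
  exact a

theorem nomark {s : ℕ} {B : ℤ} (h : al it d Q sd lab F s B) : it s (d.x s) ≠ B := fun e =>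
  h.2.2.1.2.2 _ (hs.own s h.1) (e.trans h.2.1.symm)

theorem quiet {t s : ℕ} {B0 B1 : ℤ} (h0 : al it d Q sd lab F t B0)
    (h1 : al it d Q sd lab F t B1) (s1 : t ≤ s) (s2 : s ≤ dt t B0) :
    it t (d.x s) < B0 ∨ B1 < it t (d.x s) := by
  by_contra hn
  push Not at hn
  have a := rep hs h0 h1 hn.1 hn.2
  have s3 := s2.trans (al_mono hs h0 a hn.1)
  exact nomark hs (al_keep hs a s1 s3).1 ((fib hs a s1 s3 _).1 rfl)

theorem stay {t t' : ℕ} {B0 B1 y : ℤ} (h0 : B0 ∈ met it d Q sd lab F t)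
    (h1 : B1 ∈ met it d Q sd lab F t) (hy : y ∈ d.P t') (k0 : B0 < it t y) (k1 : it t y < B1)
    (htt : t ≤ t') (hdt : t' ≤ dt t B0) : y ∈ d.P t := by
  obtain ⟨⟨p0, a1, rfl⟩, a2⟩ := (mem_met hs.items).1 h0
  obtain ⟨⟨p1, b1, rfl⟩, b2⟩ := (mem_met hs.items).1 h1
  by_contra hn
  have mo := hs.items.mono t
  have c0 := lt_of mo k0
  have c1 := lt_of mo k1
  have e0 := above hs.ok a2.1 a1 c0 (mem_P.1 hy).1.2 hn
  have e1 := below hs.ok a2.1 b1 c1 ((mem_P.1 a1).1.1.trans c0)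
  exact nopath hs.ok mo htt (al_keep hs a2 htt hdt).1.1 (mo e0) (mo e1)
    (fun s s1 s2 => quiet hs a2 b2 s1 (s2.trans hdt)) hy

end FRAMEx

open FRAMEx in
theorem p_FRAME (hTWO : IT.S_TWO) : S_FRAME := by
  intro it d Q dt sd lab F κ hs
  have hd := hs.ok
  have hi := hs.items
  have hev : ∀ t B, B ∈ (frame it d Q sd dt lab F κ).ev t →
      (∃ u ∈ d.U t, it t u = B) ∧ B ∈ met it d Q sd lab F t ∧
      #((d.P t).filter fun y => it t y = B) = κ ∧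
      (∃ B0 ∈ met it d Q sd lab F t, B0 < B) ∧ ∃ B1 ∈ met it d Q sd lab F t, B < B1 := by
    intro t B hB
    obtain ⟨h1, h2⟩ := mem_filter.1 hB
    obtain ⟨h3, h4, h5, h6, h7⟩ := mem_filter.1 h1
    obtain ⟨h8, h9, h10⟩ := mem_filter.1 h3
    rw [h2] at h6 h7
    obtain ⟨u, hu, e⟩ := mem_image.1 h8
    obtain ⟨B0, k0, k1⟩ := h6
    have e' : it t B = B := by rw [← e, hi.idem]
    exact ⟨⟨u, hu, e⟩, (mem_met hi).2 ⟨⟨u, (mem_filter.1 hu).1, e⟩, ((mem_met hi).1 k0).2.1, e',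
      h10 B (h9.trans_eq e'.symm) le_rfl, h4, h2⟩, h5, ⟨B0, k0, k1⟩, h7⟩
  refine ⟨fun t B h => ?_, fun t t' B h => al_keep hs h, fun t B B' h h' => al_mono hs h h',
    fun t t' B B' B'' h h' => al_cvx hs h h', fun t B h => ((mem_met hi).1 h).2,
    fun t B h => ⟨(hev t B h).2.1, (hev t B h).2.2.2.1⟩, ?_, ?_, ?_⟩
  · obtain ⟨a1, -, a2, -, -⟩ := h
    exact ⟨(hs.lives.rng t a1 B a2).1, (hs.lives.rng t a1 B a2).2, lt_of (hi.mono t) a2.1,
      lt_of (hi.mono t) a2.2.1⟩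
  · intro t t' B0 h0 B1 h1 B hB k0 k1 htt hdt
    change t' ≤ dt t B0 at hdt
    obtain ⟨⟨y, hy, e⟩, y2⟩ := (mem_met hi).1 hB
    have a0 := ((mem_met hi).1 h0).2
    have a := al_cvx hs a0 ((mem_met hi).1 h1).2 k0.le k1.le htt.le hdt y2
    have e' := (fib hs a htt.le (hdt.trans (al_mono hs a0 a k0.le)) y).2 e
    exact (mem_met hi).2 ⟨⟨y, stay hs h0 h1 hy (k0.trans_eq e'.symm) (e'.trans_lt k1) htt.le hdt,
      e'⟩, a⟩
  · intro t t' B hB hB' B0 h0 k0 _ htt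
    by_contra hn
    have hdt : t' ≤ dt t B0 := not_lt.1 hn
    obtain ⟨⟨u, hu, eu⟩, hm, c1, -, B1, h1, k1⟩ := hev t _ hB
    obtain ⟨-, -, c2, -⟩ := hev t' _ hB'
    obtain ⟨⟨p0, a1, e0⟩, a2⟩ := (mem_met hi).1 h0
    obtain ⟨⟨p1, b1, e1⟩, b2⟩ := (mem_met hi).1 h1
    have a := ((mem_met hi).1 hm).2
    have mo := hi.mono t
    obtain ⟨⟨-, -, t1⟩, t2, ⟨-, t3, -⟩, -⟩ := hTWO d hd t a2.1 u hu
    have hu' : u ∉ d.P t' := nopath hd mo (a := t + 1) htt (al_keep hs a2 htt.le hdt).1.1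
      (e0.ge.trans (mo (t1 p0 a1 (lt_of mo (by omega)))))
      ((mo (t3.le.trans (t2 p1 b1 (lt_of mo (by omega))))).trans e1.le)
      fun s s1 s2 => quiet hs a2 b2 (by omega) (s2.trans hdt)
    have hlt : #((d.P t').filter fun y => it t' y = B) <
        #((d.P t).filter fun y => it t y = B) := by
      refine card_lt_card ⟨fun y hy => ?_, fun hs' => ?_⟩
      · obtain ⟨y1, y2⟩ := mem_filter.1 hy
        have y3 := (fib hs a htt.le (hdt.trans (al_mono hs a2 a k0.le)) y).2 y2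
        exact mem_filter.2 ⟨stay hs h0 h1 y1 (k0.trans_eq y3.symm) (y3.trans_lt k1) htt.le hdt, y3⟩
      · exact hu' (mem_filter.1 (hs' (mem_filter.2 ⟨(mem_filter.1 hu).1, eu⟩))).1
    omega
  · intro z t t' B1 h1 B0 h0 B hB hzt htt k0 k1 d0 d1 hz dz hn
    change t' ≤ dt t B0 at d0
    change t' ≤ dt z B1 at d1
    change t' ≤ dt z B at dz
    change al it d Q sd lab F z B at hz
    obtain ⟨⟨y, hy, ey⟩, y2⟩ := (mem_met hi).1 hB
    obtain ⟨⟨p0, a1, e0⟩, a2⟩ := (mem_met hi).1 h0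
    obtain ⟨⟨p1, b1, e1⟩, b2⟩ := (mem_met hi).1 h1
    have ez : it z y = B := (fib hs hz (by omega) dz y).2 ey
    have eq : ∀ q, z ≤ q → q ≤ t' → it q y = B := fun q q1 q2 =>
      (fib hs hz q1 (q2.trans dz) y).1 ez
    have et := eq t hzt.le htt.le
    have e1t : it t p1 = B1 := (fib hs b2 hzt.le (by omega) p1).1 e1
    have hR := (mem_P.1 hy).1.2
    have hL : d.L < y := (hd.step t' y2.1).mem.1.trans (mem_P.1 hy).1.1
    have c1 : y < p1 := lt_of (hi.mono z) (by omega)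
    have hxz : d.x z < y := by
      rcases quiet hs hz b2 le_rfl (by omega) with h | h
      · exact lt_of (hi.mono z) (by omega)
      · exact absurd (lt_of (hi.mono z) (e1.trans_lt h)) (not_lt.2 (mem_P.1 b1).1.1.le)
    have f1 := below hd hz.1 b1 c1 hxz
    have hyt : y ∉ d.P t := fun h =>
      hn ((mem_met hi).2 ⟨⟨y, h, et⟩, (al_keep hs hz hzt.le (by omega)).1⟩)
    have f0 := above hd a2.1 a1 (lt_of (hi.mono t) (by omega)) hR hyt
    have f2 : p1 < d.rp t y := by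
      by_contra h
      exact nopath hd (hi.mono t) htt.le y2.1 (e0.ge.trans (hi.mono t f0))
        ((hi.mono t (not_lt.1 h)).trans e1t.le)
        (fun s s1 s2 => quiet hs a2 (al_keep hs b2 hzt.le (by omega)).1 s1 (s2.trans d0)) hy
    obtain ⟨q, q1, q2, q3⟩ := exists_rise (fun s => d.rp s y) hzt.le (f1.trans_lt f2)
    have aq := (al_keep hs hz q1 (by omega)).1
    have e := eq q q1 (by omega)
    exact ⟨q, q1, q2, (mem_met hi).2 ⟨⟨y, rise hd aq.1 hL hR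
      (fun e' => nomark hs aq (by rw [← e', e])) q3, e⟩, aq⟩⟩

end Pool.Agent.P.MP_119182_lc.GP
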