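import Pool.Agent.P.MP_119182_lc.GP.Iface

/-! Step GAP. -/

set_option autoImplicit false

namespace Pool.Agent.P.MP_119182_lc.GP

open Finset
open scoped Classical
open NU (Run mr)
open IT (Marks One mq)

namespace GAPx

theorem num {K C O A B N m I U U' V : ℕ} (s1 : O ≤ U + m * 4 + 2 * (A + B))
    (l1 : K * A ≤ 7 * N + C * (m + I)) (l2 : K * B ≤ N + K * (2 * m + (K + 1) * I + U'))
    (u1 : U ≤ 5 * V) (u2 : U' ≤ 5 * V) (h1 : m ≤ V) (h2 : m + I ≤ 6 * V) :
    K * O ≤ 16 * N + (23 * K + 12 * C + 12 * (K * (K + 1))) * V := by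
  have a1 := Nat.mul_le_mul_left K s1
  have a2 := Nat.mul_le_mul_left K u1
  have a3 := Nat.mul_le_mul_left K u2
  have a4 := Nat.mul_le_mul_left K h1
  have a5 := Nat.mul_le_mul_left C h2
  have a6 := Nat.mul_le_mul_left (K * (K + 1)) (show I ≤ 6 * V by omega)
  nlinarith

end GAPx

theorem p_GAP (hINST : S_INST) (hLEFT : S_LEFT) (hRIGHT : S_RIGHT) (hCLS : S_CLS)
    (hUP : IT.S_UP) (hLZ : IT.S_LAZY) (hEMIR : NU.S_EMIR) : S_GAP := by
  intro K
  obtain ⟨C, hC⟩ := hLEFT K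
  refine ⟨23 * K + 12 * C + 12 * (K * (K + 1)), fun σ J c Z d Q ok hJ mk one => ?_⟩
  have mm := (hLZ _ _ _ _ _ _ _ mk).2
  obtain ⟨dt, sd, lab, sy, i1⟩ := hINST σ J c Z d Q ok hJ mk one
  have l1 := hC _ d Q dt sd lab sy
  have l2 := hRIGHT K _ d Q dt sd lab sy
  have u1 := hUP d c Z Q ok mk
  have u2 := hUP d.mir c Z (mq Q) (hEMIR d |>.2 ok) mm
  have k1 : (d.mir.R - d.mir.L).toNat = (d.R - d.L).toNat := by
    change (mr d.L - mr d.R).toNat = _
    unfold mr
    omega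
  have k2 : d.mir.m = d.m := rfl
  rw [k1, k2] at u2
  have s1 : ∑ t ∈ range d.m, out (its σ d.L d.R Q) d t ≤ ∑ t ∈ range d.m, (IT.up d Q t + 4 +
      2 * (#((own (its σ d.L d.R Q) d Q t).filter fun B => sd t B) +
        #((own (its σ d.L d.R Q) d Q t).filter fun B => ¬ sd t B))) :=
    sum_le_sum fun t ht => by
      rw [card_filter_add_card_filter_not]
      exact hCLS _ d Q ok sy.items t (mem_range.1 ht)
  simp only [sum_add_distrib, ← mul_sum, sum_const, card_range, smul_eq_mul] at s1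
  generalize (d.R - d.L).toNat = n at *
  have w1 : Nat.size c * (n + 5 * d.m) ≤ 5 * ((Nat.size c + 1) * (n + d.m)) := by
    rw [mul_left_comm]
    exact Nat.mul_le_mul (by omega) (by omega)
  have w3 : n + d.m ≤ (Nat.size c + 1) * (n + d.m) := Nat.le_mul_of_pos_left _ (by omega)
  generalize (Nat.size c + 1) * (n + d.m) = W at *
  exact GAPx.num s1 l1 l2 (by omega) (by omega) (by omega) (by omega)

end Pool.Agent.P.MP_119182_lc.GP
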