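import Pool.Agent.P.MP_119182_lc.GP.Iface

/-! Step IF. -/

set_option autoImplicit false

namespace Pool.Agent.P.MP_119182_lc.GP

open Finset
open scoped Classical

namespace IFx

variable {f : IT.Fr}

/-- The width of one time step. -/
def W (f : IT.Fr) : ℕ := (2 * (f.b1 - f.b0)).toNat

/-- The code of a life. -/
def cd (f : IT.Fr) (t : ℕ) (B : ℤ) : ℤ := (f.dt t B : ℤ) * W f + 2 * (B - f.b0)

theorem cd_bd (h : OK2 f) {t : ℕ} {B : ℤ} (a : f.al t B) :
    (f.dt t B : ℤ) * W f + 2 ≤ cd f t B ∧ cd f t B + 2 ≤ (f.dt t B : ℤ) * W f + W f := by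
  obtain ⟨-, -, h1, h2⟩ := h.rng t B a
  have : (W f : ℤ) = 2 * (f.b1 - f.b0) := Int.toNat_of_nonneg (by omega)
  unfold cd
  omega

theorem mulW {a b : ℕ} (h : a ≤ b) : (a : ℤ) * W f ≤ (b : ℤ) * W f :=
  mul_le_mul_of_nonneg_right (by exact_mod_cast h) (Int.natCast_nonneg _)

theorem mulW' {a b : ℕ} (h : a < b) : (a : ℤ) * W f + W f ≤ (b : ℤ) * W f := by
  have := mulW (f := f) (Nat.succ_le_of_lt h)
  push_cast at this
  linarith

theorem cd_lt (h : OK2 f) {t : ℕ} {B B' : ℤ} (a : f.al t B) (b : f.al t B') (k : B < B') :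
    cd f t B + 1 < cd f t B' := by
  have := mulW (f := f) (h.mono t B B' a b k.le)
  unfold cd
  omega

theorem cd_le (h : OK2 f) {t : ℕ} {B B' : ℤ} (a : f.al t B) (b : f.al t B') (k : B ≤ B') :
    cd f t B ≤ cd f t B' := by
  rcases k.lt_or_eq with k | rfl
  · have := cd_lt h a b k
    omega
  · exact le_rfl

theorem le_of_cd (h : OK2 f) {t : ℕ} {B B' : ℤ} (a : f.al t B) (b : f.al t B')
    (k : cd f t B ≤ cd f t B' + 1) : B ≤ B' := by
  by_contra hn
  have := cd_lt h b a (not_le.1 hn)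
  omega

theorem lt_of_cd (h : OK2 f) {t : ℕ} {B B' : ℤ} (a : f.al t B) (b : f.al t B')
    (k : cd f t B < cd f t B') : B < B' := by
  by_contra hn
  have := cd_le h b a (not_lt.1 hn)
  omega

theorem dt_le (h : OK2 f) {t t' : ℕ} {B B' : ℤ} (a : f.al t B) (b : f.al t' B')
    (k : cd f t B ≤ cd f t' B' + 1) : f.dt t B ≤ f.dt t' B' := by
  by_contra hn
  have := mulW' (f := f) (not_le.1 hn)
  have := cd_bd h a
  have := cd_bd h b
  omega

theorem le_dt (h : OK2 f) {t t' : ℕ} {B : ℤ} (a : f.al t B)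
    (k : (t' : ℤ) * W f < cd f t B + 1) : t' ≤ f.dt t B := by
  by_contra hn
  have := mulW' (f := f) (not_le.1 hn)
  have := cd_bd h a
  omega

theorem cd_keep (h : OK2 f) {t t' : ℕ} {B : ℤ} (a : f.al t B) (h1 : t ≤ t') (h2 : t' ≤ f.dt t B) :
    f.al t' B ∧ cd f t' B = cd f t B := by
  obtain ⟨b1, b2⟩ := h.keep t t' B a h1 h2
  exact ⟨b1, by unfold cd; rw [b2]⟩

/-- The largest element of a finite set. -/
noncomputable def mx (s : Finset ℤ) : ℤ := if h : s.Nonempty then s.max' h else 0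

theorem mx_spec {s : Finset ℤ} {y : ℤ} (hy : y ∈ s) : mx s ∈ s ∧ ∀ w ∈ s, w ≤ mx s := by
  have h : s.Nonempty := ⟨y, hy⟩
  rw [mx, dif_pos h]
  exact ⟨max'_mem _ h, fun w hw => le_max' _ w hw⟩

/-- The previous item met. -/
noncomputable def pr (f : IT.Fr) (t : ℕ) (u : ℤ) : ℤ := mx ((f.met t).filter fun B => cd f t B < u)

theorem pr_spec (h : OK2 f) {t : ℕ} {B : ℤ} (hB : B ∈ f.ev t) :
    pr f t (cd f t B) ∈ f.met t ∧ pr f t (cd f t B) < B ∧
      ∀ B' ∈ f.met t, B' < B → B' ≤ pr f t (cd f t B) := by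
  obtain ⟨h1, B0, h2, h3⟩ := h.low t B hB
  have k : ∀ B' ∈ f.met t, B' < B → B' ∈ (f.met t).filter fun C => cd f t C < cd f t B :=
    fun B' a b => mem_filter.2 ⟨a, by
      have := cd_lt h (h.sub t _ a) (h.sub t _ h1) b
      omega⟩
  obtain ⟨a, b⟩ := mx_spec (k B0 h2 h3)
  obtain ⟨a1, a2⟩ := mem_filter.1 a
  exact ⟨a1, lt_of_cd h (h.sub t _ a1) (h.sub t _ h1) a2, fun B' c e => b B' (k B' c e)⟩

/-- Lives that start at time `q + 1`. -/
noncomputable def bir (f : IT.Fr) (q : ℕ) : Finset ℤ :=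
  (Ioo f.b0 f.b1).filter fun B => f.al (q + 1) B ∧ ¬ (f.al q B ∧ f.dt q B = f.dt (q + 1) B)

/-- The lifts. -/
noncomputable def ZZ (f : IT.Fr) (q : ℕ) : Finset ℤ :=
  (f.met q).image (cd f q) ∪ (bir f q).image (cd f (q + 1))

/-- The frame of codes. -/
noncomputable def co (f : IT.Fr) : CO.Core where
  A := range f.m
  x := fun t => (t : ℤ) * W f
  P := fun t => (f.met t).image (cd f t) ∪ (f.met t).image fun B => cd f t B + 1
  r := fun t => cd f t (mx (f.met t)) + 1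
  U := fun t => (f.ev t).image (cd f t)
  lo := fun t u => cd f t (pr f t u) + 1
  Zs := ∅
  lf := fun _ => 0

theorem flip (Q : ℕ → Prop) {z t : ℕ} (h : z ≤ t) (hz : ¬ Q z) (ht : Q t) :
    ∃ q, z ≤ q ∧ q < t ∧ ¬ Q q ∧ Q (q + 1) := by
  induction t, h using Nat.le_induction with
  | base => exact absurd ht hz
  | succ b hab ih =>
    by_cases k : Q b
    · obtain ⟨q, q1, q2, q3⟩ := ih k
      exact ⟨q, q1, by omega, q3⟩
    · exact ⟨b, hab, Nat.lt_succ_self b, k, ht⟩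

theorem nobetween (h : OK2 f) {t t' : ℕ} {B B' : ℤ} (hB : B ∈ f.ev t) (hB' : B' ∈ f.met t')
    (htt : t < t') (hd : t' ≤ f.dt t (pr f t (cd f t B))) (k : pr f t (cd f t B) < B') :
    B ≤ B' := by
  obtain ⟨p1, p2, p3⟩ := pr_spec h hB
  by_contra hn
  have := p3 B' (h.on t t' _ p1 B (h.low t B hB).1 B' hB' k (not_le.1 hn) htt hd) (not_le.1 hn)
  omega

theorem co_ok (h : OK2 f) : IT.OKM (co f) (ZZ f) := by
  have m0 : ∀ t, ∀ B ∈ f.met t, cd f t B ∈ (co f).P t := fun t B a =>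
    mem_union_left _ (mem_image_of_mem _ a)
  have m1 : ∀ t, ∀ B ∈ f.met t, cd f t B + 1 ∈ (co f).P t := fun t B a =>
    mem_union_right _ (mem_image_of_mem (fun B => cd f t B + 1) a)
  refine ⟨fun a b k => mulW k, ?_, ?_, ?_, ?_, ?_, ?_, ?_⟩
  · intro t y hy
    change y ≤ cd f t (mx (f.met t)) + 1
    rcases mem_union.1 hy with hy | hy <;> obtain ⟨B, a, rfl⟩ := mem_image.1 hy <;>
      have := cd_le h (h.sub t _ a) (h.sub t _ (mx_spec a).1) ((mx_spec a).2 B a) <;> omega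
  · intro t u hu
    obtain ⟨B, a, rfl⟩ := mem_image.1 hu
    obtain ⟨p1, p2, -⟩ := pr_spec h a
    exact ⟨m0 t B (h.low t B a).1, m1 t _ p1, cd_lt h (h.sub t _ p1) (h.sub t _ (h.low t B a).1) p2⟩
  · intro t u hu v hv k
    obtain ⟨B, a, rfl⟩ := mem_image.1 hu
    obtain ⟨B', b, rfl⟩ := mem_image.1 hv
    obtain ⟨p1, -, p3⟩ := pr_spec h b
    have a1 := (h.low t B a).1
    have := cd_le h (h.sub t _ a1) (h.sub t _ p1)
      (p3 B a1 (lt_of_cd h (h.sub t _ a1) (h.sub t _ (h.low t B' b).1) k))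
    change _ < cd f t _ + 1
    omega
  · intro t t' u hu v hv htt k1 k2
    obtain ⟨B, a, rfl⟩ := mem_image.1 hu
    obtain ⟨B', b, rfl⟩ := mem_image.1 hv
    obtain ⟨p1, p2, p3⟩ := pr_spec h a
    have a1 := h.sub t _ (h.low t B a).1
    have b1 := h.sub t' _ (h.low t' B' b).1
    have d0 := le_dt h (h.sub t _ p1) k1
    obtain ⟨c1, c2⟩ := cd_keep h (h.sub t _ p1) htt.le d0
    obtain ⟨e1, e2⟩ := cd_keep h a1 htt.le (d0.trans (h.mono t _ _ (h.sub t _ p1) a1 p2.le))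
    change cd f t _ + 1 < _ at k2
    have g := nobetween h a (h.low t' B' b).1 htt d0 (lt_of_cd h c1 b1 (by omega))
    rcases g.lt_or_eq with g | rfl
    · have := cd_lt h e1 b1 g
      omega
    · exact absurd (h.col t t' B a b _ p1 p2 p3 htt) (not_lt.2 d0)
  · intro t t' u hu v hv htt k1 k2
    obtain ⟨B, a, rfl⟩ := mem_image.1 hu
    obtain ⟨B', b, rfl⟩ := mem_image.1 hv
    obtain ⟨p1, p2, -⟩ := pr_spec h a
    obtain ⟨q1, -, -⟩ := pr_spec h b
    have a1 := h.sub t _ (h.low t B a).1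
    have d0 := le_dt h (h.sub t _ p1) k1
    obtain ⟨c1, c2⟩ := cd_keep h (h.sub t _ p1) htt.le d0
    obtain ⟨e1, e2⟩ := cd_keep h a1 htt.le (d0.trans (h.mono t _ _ (h.sub t _ p1) a1 p2.le))
    change cd f t _ + 1 < cd f t' _ + 1 at k2
    have := cd_le h e1 (h.sub t' _ q1)
      (nobetween h a q1 htt d0 (lt_of_cd h c1 (h.sub t' _ q1) (by omega)))
    change _ < cd f t' _ + 1
    omega
  · intro t t' u hu v hv htt k1 k2
    obtain ⟨B, a, rfl⟩ := mem_image.1 hu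
    obtain ⟨B', b, rfl⟩ := mem_image.1 hv
    obtain ⟨p1, -, -⟩ := pr_spec h a
    obtain ⟨r1, r2⟩ := mx_spec p1
    have b0 := (h.low t' B' b).1
    have b1 := h.sub t' _ b0
    have d0 := le_dt h (h.sub t _ p1) k1
    obtain ⟨c1, c2⟩ := cd_keep h (h.sub t _ p1) htt.le d0
    change cd f t _ + 1 < _ at k2
    have g := lt_of_cd h c1 b1 (by omega)
    have fin : B' ∈ f.met t → cd f t' B' ∈ (co f).P t := fun k => by
      rw [(cd_keep h (h.sub t _ k) htt.le
        (d0.trans (h.mono t _ _ (h.sub t _ p1) (h.sub t _ k) g.le))).2]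
      exact m0 t _ k
    rcases lt_trichotomy B' (mx (f.met t)) with e | e | e
    · exact Or.inl (fin (h.on t t' _ p1 _ r1 B' b0 g e htt d0))
    · exact Or.inl (fin (e ▸ r1))
    · obtain ⟨e1, e2⟩ := cd_keep h (h.sub t _ r1) htt.le
        (d0.trans (h.mono t _ _ (h.sub t _ p1) (h.sub t _ r1) (r2 _ p1)))
      refine Or.inr ?_
      change cd f t _ + 1 < _
      rw [← e2]
      exact cd_lt h e1 b1 e
  · intro z t t' u hu v hv hzt htt k1 hz k2 k3
    obtain ⟨B, a, rfl⟩ := mem_image.1 hu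
    obtain ⟨B', b, rfl⟩ := mem_image.1 hv
    obtain ⟨w, hw⟩ := hz
    obtain ⟨Bw, hw, -⟩ := mem_image.1 hw
    obtain ⟨z1, -⟩ := mx_spec (h.low z Bw hw).1
    obtain ⟨p1, -, -⟩ := pr_spec h a
    obtain ⟨r1, r2⟩ := mx_spec p1
    have b0 := (h.low t' B' b).1
    have b1 := h.sub t' _ b0
    have za := h.sub z _ z1
    have d0 := le_dt h (h.sub t _ p1) k1
    change _ < cd f z _ + 1 at k2
    change cd f t _ + 1 < _ at k3
    have d1 : t' ≤ f.dt z (mx (f.met z)) := (h.rng t' B' b1).1.trans (dt_le h b1 za k2.le)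
    have hm : t' < f.m := (h.rng t' B' b1).1.trans_lt (h.rng t' B' b1).2.1
    obtain ⟨c1, c2⟩ := cd_keep h za (by omega) d1
    obtain ⟨e1, e2⟩ := cd_keep h (h.sub t _ r1) htt.le
      (d0.trans (h.mono t _ _ (h.sub t _ p1) (h.sub t _ r1) (r2 _ p1)))
    have g1 : mx (f.met t) < B' := lt_of_cd h e1 b1 (by omega)
    have g2 : B' ≤ mx (f.met z) := le_of_cd h b1 c1 (by omega)
    have g0 : pr f t (cd f t B) < B' := (r2 _ p1).trans_lt g1
    rcases g2.lt_or_eq with g2 | g2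
    · have at' : f.al t B' := h.cvx t t' _ _ _ (h.sub t _ p1)
        (h.keep z t _ za hzt.le (by omega)).1 g0.le g2.le htt.le d0 b1
      have d2 : t' ≤ f.dt t B' := d0.trans (h.mono t _ _ (h.sub t _ p1) at' g0.le)
      have e3 := (cd_keep h at' htt.le d2).2
      by_cases hq : f.al z B' ∧ f.dt z B' = f.dt t B'
      · obtain ⟨q, q1, q2, q3⟩ := h.hid z t t' _ z1 _ p1 B' b0 hzt htt g0 g2 d0 d1 hq.1
          (by omega) fun k => absurd (r2 _ k) (not_le.2 g1)
        refine ⟨q, mem_range.2 (by omega), q1, q2, mem_union_left _ (mem_image.2 ⟨B', q3, ?_⟩)⟩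
        rw [(cd_keep h hq.1 q1 (by omega)).2, (cd_keep h hq.1 (by omega : z ≤ t') (by omega)).2]
      · obtain ⟨q, q1, q2, q3, q4, q5⟩ :=
          flip (fun s => f.al s B' ∧ f.dt s B' = f.dt t B') hzt.le hq ⟨at', rfl⟩
        refine ⟨q, mem_range.2 (by omega), q1, q2, mem_union_right _ (mem_image.2 ⟨B',
          mem_filter.2 ⟨mem_Ioo.2 (h.rng _ _ b1).2.2, q4, fun k => q3 ⟨k.1, k.2.trans q5⟩⟩, ?_⟩)⟩
        rw [e3]
        unfold cd
        rw [q5]
    · refine ⟨z, mem_range.2 (by omega), le_rfl, hzt,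
        mem_union_left _ (mem_image.2 ⟨_, z1, ?_⟩)⟩
      rw [g2, c2]

/-- The set of lives. -/
noncomputable def SS (f : IT.Fr) : Finset (ℕ × ℤ) :=
  (range f.m ×ˢ Ioo f.b0 f.b1).filter fun p => f.al p.1 p.2 ∧ f.dt p.1 p.2 = p.1

theorem mem_SS (h : OK2 f) {t : ℕ} {B : ℤ} (a : f.al t B) :
    (f.dt t B, B) ∈ SS f ∧ cd f (f.dt t B) B = cd f t B := by
  obtain ⟨r1, r2, r3⟩ := h.rng t B a
  obtain ⟨k1, k2⟩ := h.keep t _ B a r1 le_rfl
  exact ⟨mem_filter.2 ⟨mem_product.2 ⟨mem_range.2 r2, mem_Ioo.2 r3⟩, k1, k2⟩,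
    (cd_keep h a r1 le_rfl).2⟩

/-- The slots. -/
noncomputable def sl (f : IT.Fr) (v : ℤ) : ℕ := #((SS f).filter fun p => cd f p.1 p.2 ≤ v)

theorem sl_mono : Monotone (sl f) := fun _ _ k => card_le_card fun _ hp =>
  mem_filter.2 ⟨(mem_filter.1 hp).1, (mem_filter.1 hp).2.trans k⟩

theorem sl_lt (h : OK2 f) {t : ℕ} {B v w : ℤ} (a : f.al t B) (h1 : v < cd f t B)
    (h2 : cd f t B ≤ w) : sl f v < sl f w := by
  obtain ⟨k1, k2⟩ := mem_SS h a
  refine card_lt_card ⟨fun p hp => mem_filter.2 ⟨(mem_filter.1 hp).1,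
    (mem_filter.1 hp).2.trans (by omega)⟩, fun hs => ?_⟩
  have := (mem_filter.1 (hs (mem_filter.2 ⟨k1, k2.trans_le h2⟩))).2
  change cd f (f.dt t B) B ≤ v at this
  omega

theorem cnt_eq (h : OK2 f) : (co f).cnt (sl f) = ∑ t ∈ range f.m, #(f.ev t) := by
  refine sum_congr rfl fun t _ => ?_
  rw [filter_true_of_mem]
  · refine card_image_of_injOn fun B a B' b e => ?_
    have a1 := h.sub t _ (h.low t B a).1
    have b1 := h.sub t _ (h.low t B' b).1
    exact le_antisymm (le_of_cd h a1 b1 (by omega)) (le_of_cd h b1 a1 (by omega))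
  · intro u hu
    obtain ⟨B, a, rfl⟩ := mem_image.1 hu
    obtain ⟨p1, p2, -⟩ := pr_spec h a
    have p3 := h.sub t _ p1
    have a1 := h.sub t _ (h.low t B a).1
    have b1 := cd_bd h p3
    have b2 := mulW (f := f) (h.rng t _ p3).1
    unfold CO.Core.Sep
    simp only [pow_zero, Nat.div_one]
    exact ⟨sl_lt h p3 (show (t : ℤ) * W f < _ by omega) (show _ ≤ cd f t _ + 1 by omega),
      sl_lt h a1 (cd_lt h p3 a1 p2) le_rfl⟩

theorem bir_le (h : OK2 f) : ∑ q ∈ range f.m, #(bir f q) ≤ #(SS f) := by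
  rw [← card_sigma]
  refine card_le_card_of_injOn (fun p => (f.dt (p.1 + 1) p.2, p.2)) (fun p hp => ?_) ?_
  · exact (mem_SS h (mem_filter.1 (mem_sigma.1 hp).2).2.1).1
  · have key : ∀ (q q' : ℕ) (B : ℤ), B ∈ bir f q → B ∈ bir f q' → q < q' →
        f.dt (q + 1) B ≠ f.dt (q' + 1) B := fun q q' B a b k e => by
      obtain ⟨-, a1, -⟩ := mem_filter.1 a
      obtain ⟨-, b1, b2⟩ := mem_filter.1 b
      have := (h.rng _ _ b1).1
      obtain ⟨c1, c2⟩ := h.keep (q + 1) q' B a1 k (by omega)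
      exact b2 ⟨c1, c2.trans e⟩
    rintro ⟨q, B⟩ a ⟨q', B'⟩ b e
    obtain ⟨e1, e2⟩ := Prod.mk.inj e
    change B = B' at e2
    subst e2
    have a1 := (mem_sigma.1 a).2
    have b1 := (mem_sigma.1 b).2
    rcases lt_trichotomy q q' with k | k | k
    · exact absurd e1 (key q q' B a1 b1 k)
    · subst k
      rfl
    · exact absurd e1.symm (key q' q B b1 a1 k)

end IFx

open IFx in
theorem p_IF (hCM : IT.S_CM) : S_IF := by
  obtain ⟨C, hC⟩ := hCM
  refine ⟨2 * C + 2, fun K f h => ?_⟩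
  have e := hC K (co f) (ZZ f) (#(SS f) + 1) (sl f) (co_ok h) sl_mono
    fun y => Nat.lt_succ_of_le (card_filter_le _ _)
  rw [cnt_eq h] at e
  have e1 : (co f).N ≤ 2 * ∑ t ∈ range f.m, #(f.met t) := by
    rw [mul_sum]
    refine sum_le_sum fun t _ => (card_union_le _ _).trans ?_
    rw [two_mul]
    exact Nat.add_le_add card_image_le card_image_le
  have e2 : ∑ t ∈ (co f).A, #(ZZ f t) ≤ ∑ t ∈ range f.m, #(f.met t) + #(SS f) := by
    refine le_trans ?_ (Nat.add_le_add_left (bir_le h) _)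
    rw [← sum_add_distrib]
    exact sum_le_sum fun t _ => (card_union_le _ _).trans
      (Nat.add_le_add card_image_le card_image_le)
  have e3 : (co f).own = #((range f.m).filter fun t => (f.ev t).Nonempty) := by
    unfold CO.Core.own
    congr 1
    exact filter_congr fun t _ => image_nonempty
  have e4 : f.inst = #(SS f) := rfl
  rw [e3] at e
  rw [e4]
  rcases Nat.eq_zero_or_pos #(SS f) with h0 | h0
  · have : ∑ t ∈ range f.m, #(f.ev t) = 0 := sum_eq_zero fun t _ => by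
      rw [card_eq_zero, eq_empty_iff_forall_notMem]
      intro B hB
      have := card_pos.2 ⟨_, (mem_SS h (h.sub t _ (h.low t B hB).1)).1⟩
      omega
    rw [this]
    exact Nat.zero_le _
  · have p1 : 1 ≤ (K + 1) ^ 6 := Nat.one_le_pow _ _ (by omega)
    generalize (K + 1) ^ 6 = X at e p1 ⊢
    have p2 : C * X * 1 ≤ C * X * #(SS f) := Nat.mul_le_mul_left _ h0
    have p3 : 1 * #(SS f) ≤ X * #(SS f) := Nat.mul_le_mul_right _ p1
    nlinarith

end Pool.Agent.P.MP_119182_lc.GP
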