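import Pool.Agent.P.MP_119182_lc.GP.Iface

/-! Step INST. -/

set_option autoImplicit false

namespace Pool.Agent.P.MP_119182_lc.GP

open Finset
open scoped Classical
open NU (Run mr)
open IT (Marks One mq conn Kill Lives)

theorem p_INST (hITEM : S_ITEM) (hKA : S_KA) (hKB : S_KB) (hKC : S_KC) (hDTH : S_DTH)
    (hCNT : S_CNT) (hBORN : S_BORN) : S_INST := by
  intro σ J c Z d Q hd hJ hM hO
  have hK : Kill d.m (lv (its σ d.L d.R Q) d.L d.R Q) (KL σ d.L d.R d.x Q) (KR σ d.L d.R d.x Q) :=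
    ⟨fun t B B' _ h1 h2 => (hKA σ d.L d.R d.x Q t B B' h1 h2).1,
      fun t B B' _ h1 h2 => (hKA σ d.L d.R d.x Q t B B' h1 h2).2,
      fun t B ht h1 h2 h3 => (hKB σ d.L d.R d.m d.x c Z Q hM hO t B ht h1 h2 h3).1,
      fun t B B' ht h0 h1 h2 h3 h4 h5 h6 =>
        hKC σ d.L d.R d.m d.x c Z Q hM hO t B B' ht h0 h1 ⟨h3, h2⟩ h4 ⟨h5, h6⟩⟩
  obtain ⟨dt, sd, lab, hL, hF, hD⟩ := hDTH d.m (its σ d.L d.R Q) _ _ _ hK
    fun t B ht h1 h0 h2 h3 => (hKB σ d.L d.R d.m d.x c Z Q hM hO t B ht h1 h2 h3).2 h0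
  refine ⟨dt, sd, lab, ⟨hd, hM.own, ⟨fun t => (hITEM σ d.L d.R (Q t)).2.2.2.2.2.1.1,
    fun t => (hITEM σ d.L d.R (Q t)).2.2.2.2.2.1.2⟩, hL, hF⟩, ?_⟩
  have h1 : inst (its σ d.L d.R Q) d Q dt ≤ (d.R - d.L).toNat + ∑ t ∈ range (d.m - 1),
      (2 * #(hit σ J d.L d.R d.x Q t) + 4 * born σ J d.L d.R Q t) := by
    have e : inst (its σ d.L d.R Q) d Q dt = ∑ t ∈ range d.m, #((Ioo d.L d.R).filter fun B =>
        its σ d.L d.R Q t B = B ∧ lv (its σ d.L d.R Q) d.L d.R Q t B ∧ dt t B = t) := by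
      simp only [inst, card_filter, sum_product]
    rw [e]
    rcases hm : d.m with _ | k
    · simp
    rw [sum_range_succ, add_comm, Nat.add_sub_cancel]
    refine add_le_add ((card_filter_le _ _).trans ?_) (sum_le_sum fun t ht => ?_)
    · rw [Int.card_Ioo]
      omega
    · have ht' : t + 1 < d.m := by
        have := mem_range.1 ht
        omega
      refine le_trans (card_le_card fun B hB => ?_)
        (hCNT σ J d.L d.R d.m d.x c Z Q hJ hM hO t ht')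
      obtain ⟨b1, b2, b3, b4⟩ := mem_filter.1 hB
      exact mem_filter.2 ⟨b1, b2, b3, hD t B ht' b3 b4⟩
  have h2 := hBORN.2 σ J d.L d.R d.m d.x c Z Q hM hO
  have h3 : ∑ t ∈ range (d.m - 1), #(hit σ J d.L d.R d.x Q t) ≤ we σ J d.L d.R d.m d.x Q := by
    refine sum_le_sum fun t _ => ?_
    rw [card_eq_sum_ones]
    refine sum_le_sum fun j hj => Nat.one_le_pow _ _ ?_
    have := (mem_Ioo.1 (mem_filter.1 hj).1).1
    omega
  rw [sum_add_distrib, ← mul_sum, ← mul_sum] at h1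
  omega

end Pool.Agent.P.MP_119182_lc.GP
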