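import Pool.Agent.P.MP_119182_lc.GP.Iface

/-! Maximal free cells are items. -/

set_option autoImplicit false

namespace Pool.Agent.P.MP_119182_lc.GP

namespace ITEMx

lemma pos (j : ℕ) : (0 : ℤ) < 2 ^ j := by positivity

lemma mono {a b : ℤ} (j : ℕ) (h : a ≤ b) : a / 2 ^ j ≤ b / 2 ^ j := Int.ediv_le_ediv (pos j) h

lemma dd (a : ℤ) {j j' : ℕ} (h : j ≤ j') : a / 2 ^ j' = a / 2 ^ j / 2 ^ (j' - j) := by
  rw [Int.ediv_ediv_of_nonneg (pos j).le, ← pow_add, Nat.add_sub_cancel' h]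

lemma upl {a b : ℤ} {j j' : ℕ} (h : j ≤ j') (e : a / 2 ^ j ≤ b / 2 ^ j) :
    a / 2 ^ j' ≤ b / 2 ^ j' := by
  rw [dd a h, dd b h]
  exact mono _ e

lemma up {a b : ℤ} {j j' : ℕ} (h : j ≤ j') (e : a / 2 ^ j = b / 2 ^ j) :
    a / 2 ^ j' = b / 2 ^ j' := le_antisymm (upl h e.le) (upl h e.ge)

variable {σ : ℕ} {L R : ℤ} {W : Finset ℤ}

lemma p1 {j j' : ℕ} {v : ℤ} (h : j ≤ j') (f : fr L R W j' (v / 2 ^ j')) :
    fr L R W j (v / 2 ^ j) :=
  ⟨not_le.1 fun e => f.1.not_ge (upl h e), not_le.1 fun e => f.2.1.not_ge (upl h e),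
    fun z hz e => f.2.2 z hz (up h e)⟩

lemma p3 {j : ℕ} {v : ℤ} (f : fr L R W j (v / 2 ^ j)) : L < v ∧ v < R :=
  ⟨not_le.1 fun e => f.1.not_ge (mono j e), not_le.1 fun e => f.2.1.not_ge (mono j e)⟩

lemma bd {j : ℕ} {C : ℤ} (f : fr L R W j C) : j ≤ (R - L).toNat := by
  have h1 := Int.lt_ediv_add_one_mul_self L (pos j)
  have h2 := Int.ediv_mul_le R (pos j).ne'
  have h3 : (L / 2 ^ j + 2) * 2 ^ j ≤ R / 2 ^ j * 2 ^ j :=
    mul_le_mul_of_nonneg_right (by linarith [f.1, f.2.1]) (pos j).le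
  have h4 : (j : ℤ) < 2 ^ j := by exact_mod_cast Nat.lt_two_pow_self
  have h5 : (j : ℤ) ≤ R - L := by linarith
  omega

lemma bdd (v : ℤ) : BddAbove {j | j = σ + 1 ∨ (σ < j ∧ fr L R W j (v / 2 ^ j))} := by
  refine ⟨max (σ + 1) (R - L).toNat, ?_⟩
  rintro j (rfl | h)
  · exact le_max_left _ _
  · exact (bd h.2).trans (le_max_right _ _)

lemma mem (v : ℤ) : lev σ L R W v = σ + 1 ∨
    (σ < lev σ L R W v ∧ fr L R W (lev σ L R W v) (v / 2 ^ lev σ L R W v)) :=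
  Nat.sSup_mem (s := {j | j = σ + 1 ∨ (σ < j ∧ fr L R W j (v / 2 ^ j))}) ⟨σ + 1, Or.inl rfl⟩ (bdd v)

lemma lt (v : ℤ) : σ < lev σ L R W v := by
  rcases mem (σ := σ) (L := L) (R := R) (W := W) v with h | h
  · omega
  · exact h.1

lemma mx {j : ℕ} {v : ℤ} (f : fr L R W j (v / 2 ^ j)) : j ≤ lev σ L R W v := by
  rcases lt_or_ge σ j with h | h
  · exact le_csSup (bdd v) (Or.inr ⟨h, f⟩)
  · exact h.trans (lt v).le

lemma same {v w : ℤ} (e : w / 2 ^ lev σ L R W v = v / 2 ^ lev σ L R W v) :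
    lev σ L R W w = lev σ L R W v := by
  have h1 : lev σ L R W v ≤ lev σ L R W w := by
    rcases mem (σ := σ) (L := L) (R := R) (W := W) v with h | h
    · exact h.trans_le (lt w)
    · exact mx (e ▸ h.2)
  refine le_antisymm ?_ h1
  rcases mem (σ := σ) (L := L) (R := R) (W := W) w with h | h
  · exact h.trans_le (lt v)
  · exact mx (up h1 e ▸ h.2)

lemma cell (v : ℤ) : itm σ L R W v / 2 ^ lev σ L R W v = v / 2 ^ lev σ L R W v :=
  Int.mul_ediv_cancel _ (pos _).ne'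

lemma back {v w : ℤ} (e : w / 2 ^ lev σ L R W v = v / 2 ^ lev σ L R W v) :
    itm σ L R W v = itm σ L R W w := by
  unfold itm
  rw [same e, e]

lemma lvl {v w : ℤ} (e : itm σ L R W v = itm σ L R W w) : lev σ L R W v = lev σ L R W w := by
  rw [← same (cell v), e, same (cell w)]

lemma forth {v w : ℤ} (e : itm σ L R W v = itm σ L R W w) :
    w / 2 ^ lev σ L R W v = v / 2 ^ lev σ L R W v := by
  rw [← cell v, e, lvl e, cell w]

lemma le (v : ℤ) : itm σ L R W v ≤ v := Int.ediv_mul_le _ (pos _).ne'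

lemma mon : Monotone (itm σ L R W) := by
  intro v w h
  rcases le_or_gt (itm σ L R W w) v with c | c
  · refine (back (le_antisymm (mono _ h) ?_)).ge
    rw [← cell w]
    exact mono _ c
  · exact ((le v).trans_lt c).le

end ITEMx

open ITEMx in
theorem p_ITEM : S_ITEM := by
  intro σ L R W
  refine ⟨fun j j' v h f => p1 h f, fun j J C e f => not_le.1 fun h => ?_, fun j v f => p3 f,
    fun v => ⟨lt v, (mem v).imp_right And.right, fun j f => mx f⟩,
    fun v w => ⟨⟨forth, back⟩, lvl⟩, ⟨mon, fun v => (back (cell v)).symm⟩, fun v => ⟨?_, ?_⟩⟩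
  · exact (f.1.trans f.2.1).ne (up h e)
  · rintro ⟨h1, h2, h3⟩
    refine p1 (lt (σ := σ) (L := L) (R := R) (W := W) v) ⟨?_, ?_, fun z hz e => ?_⟩
    · exact lt_of_le_of_ne (mono _ (mon.reflect_lt h1).le) fun e => h1.ne' (back e)
    · exact lt_of_le_of_ne (mono _ (mon.reflect_lt h2).le) fun e => h2.ne (back e.symm)
    · exact h3 z hz (back e).symm
  · intro f
    have g : fr L R W (lev σ L R W v) (v / 2 ^ lev σ L R W v) := by
      rcases mem (σ := σ) (L := L) (R := R) (W := W) v with h | h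
      · rw [h]
        exact f
      · exact h.2
    obtain ⟨a1, a2⟩ := p3 f
    exact ⟨lt_of_le_of_ne (mon a1.le) fun e => g.1.ne (forth e.symm),
      lt_of_le_of_ne (mon a2.le) fun e => g.2.1.ne' (forth e),
      fun z hz e => g.2.2 z hz (forth e.symm)⟩

end Pool.Agent.P.MP_119182_lc.GP
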