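import Pool.Agent.P.MP_119182_lc.GP.Iface

/-! The rules kill a first part and a last part of each gap. -/

set_option autoImplicit false

namespace Pool.Agent.P.MP_119182_lc.GP

open Finset
open scoped Classical

theorem KAx.mid {a b c : ℤ} (k : ℕ) (h1 : a ≤ b) (h2 : b ≤ c) (h : a / 2 ^ k = c / 2 ^ k) :
    b / 2 ^ k = c / 2 ^ k :=
  le_antisymm (Int.ediv_le_ediv (by positivity) h2) (h ▸ Int.ediv_le_ediv (by positivity) h1)

theorem p_KA (hITEM : S_ITEM) : S_KA := by
  intro σ L R x Q t B B' hB hc
  have hm : Monotone (its σ L R Q t) := (hITEM σ L R (Q t)).2.2.2.2.2.1.1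
  have h1 : L < B := lt_of_not_ge fun k => (hc B le_rfl hB).1.not_ge (hm k)
  have h2 : B' < R := lt_of_not_ge fun k => (hc B' hB le_rfl).2.1.not_ge (hm k)
  have h3 : ∀ z ∈ Q t, z < B ∨ B' < z := fun z hz => by
    by_contra! k
    exact (hc z k.1 k.2).2.2 z hz rfl
  constructor
  · rintro (⟨⟨a1, a2, a3, a4, a5⟩, z, hz, b1, b2⟩ | ⟨y, hy, b1, a1, a2, a3, a4, a5⟩)
    · have hzB : z < B := by
        rcases mem_insert.1 hz with rfl | k
        · exact h1
        · have := a5 z k
          have := h3 z k
          omega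
      refine Or.inl ⟨⟨a1, (KAx.mid _ hzB.le hB (b2.trans a2.symm)).trans a2, by omega, by omega,
        fun w hw => ?_⟩, z, hz, b1, b2⟩
      have := a5 w hw
      have := h3 w hw
      omega
    · have hyB : y < B := by
        have := h3 y (mem_sdiff.1 hy).1
        omega
      refine Or.inr ⟨y, hy, hyB, a1, (KAx.mid _ hyB.le hB a2.symm).trans a2, by omega, by omega,
        fun w hw => ?_⟩
      have := a5 w hw
      omega
  · rintro (⟨⟨a1, a2, a3, a4, a5⟩, z, hz, b1, b2⟩ | ⟨y, hy, b1, a1, a2, a3, a4, a5⟩)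
    · have hzB : B' < z := by
        rcases mem_insert.1 hz with rfl | k
        · exact h2
        · have := a5 z k
          have := h3 z k
          omega
      refine Or.inl ⟨⟨a1, (KAx.mid _ hB hzB.le (a2.trans b2.symm)).trans b2, by omega, by omega,
        fun w hw => ?_⟩, z, hz, b1, b2⟩
      have := a5 w hw
      have := h3 w hw
      omega
    · have hyB : B' < y := by
        have := h3 y (mem_sdiff.1 hy).1
        omega
      refine Or.inr ⟨y, hy, hyB, a1, KAx.mid _ hB hyB.le a2, by omega, by omega, fun w hw => ?_⟩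
      have := a5 w hw
      omega

end Pool.Agent.P.MP_119182_lc.GP
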