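import Pool.Agent.P.MP_119182_lc.GP.Iface

/-! A point that is not killed keeps its level. -/

set_option autoImplicit false

namespace Pool.Agent.P.MP_119182_lc.GP

open Finset
open scoped Classical
open IT (Marks One)

namespace KBx

theorem pos (j : ℕ) : (0 : ℤ) < 2 ^ j := by positivity

theorem up {a b : ℤ} {j k : ℕ} (h : a / 2 ^ j = b / 2 ^ j) (hk : j ≤ k) :
    a / 2 ^ k = b / 2 ^ k := by
  obtain ⟨e, rfl⟩ := Nat.exists_eq_add_of_le hk
  rw [pow_add, ← Int.ediv_ediv_of_nonneg (pos j).le, ← Int.ediv_ediv_of_nonneg (pos j).le, h]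

theorem mono {a b : ℤ} (j : ℕ) (h : a ≤ b) : a / 2 ^ j ≤ b / 2 ^ j :=
  Int.ediv_le_ediv (pos j) h

theorem btw_of {L R : ℤ} {W : Finset ℤ} {j : ℕ} {C v y : ℤ} (h : fr L R W j C)
    (hv : v / 2 ^ j = C) (hy : y / 2 ^ j = C) : btw L R W v y := by
  obtain ⟨h1, h2, h3⟩ := h
  have hmin : min v y / 2 ^ j = C := by
    rcases min_choice v y with e | e <;> rw [e] <;> assumption
  have hmax : max v y / 2 ^ j = C := by
    rcases max_choice v y with e | e <;> rw [e] <;> assumption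
  refine ⟨?_, ?_, fun z hz => ?_⟩
  · by_contra hc
    have := mono j (not_lt.1 hc)
    omega
  · by_contra hc
    have := mono j (not_lt.1 hc)
    omega
  · by_contra hc
    rw [not_or, not_lt, not_lt] at hc
    have a1 := mono j hc.1
    have a2 := mono j hc.2
    exact h3 z hz (by omega)

theorem near_of (hITEM : S_ITEM) {σ : ℕ} {L R : ℤ} {W : Finset ℤ} {j : ℕ} {B y : ℤ}
    (hj : σ < j) (h : fr L R W j (B / 2 ^ j)) (hy : y / 2 ^ j = B / 2 ^ j) :
    near σ L R W y B := by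
  obtain ⟨i1, -, -, i4, -⟩ := hITEM σ L R W
  have hy' : fr L R W j (y / 2 ^ j) := by rw [hy]; exact h
  refine ⟨i1 (σ + 1) j y hj hy', ?_, btw_of h rfl hy⟩
  exact up hy.symm (((i4 y).2.2 j hy').trans (Nat.le_succ _))

theorem k1 (hITEM : S_ITEM) {σ : ℕ} {L R : ℤ} {x : ℕ → ℤ} {Q : ℕ → Finset ℤ} {t j : ℕ} {B : ℤ}
    (hj : σ < j) (h : fr L R (Q t) j (B / 2 ^ j)) (hy : x (t + 1) / 2 ^ j = B / 2 ^ j) :
    KL σ L R x Q t B ∨ KR σ L R x Q t B := by
  have hn := near_of hITEM hj h hy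
  obtain ⟨-, -, i3, i4, -⟩ := hITEM σ L R (Q t)
  have hy' : fr L R (Q t) j (x (t + 1) / 2 ^ j) := by rw [hy]; exact h
  obtain ⟨hL, hR⟩ := i3 j _ hy'
  have hnf : ¬ fr L R (Q t) (lev σ L R (Q t) (x (t + 1)) + 1)
      (x (t + 1) / 2 ^ (lev σ L R (Q t) (x (t + 1)) + 1)) := by
    intro hf
    have := (i4 (x (t + 1))).2.2 _ hf
    omega
  by_cases c1 : L / 2 ^ (lev σ L R (Q t) (x (t + 1)) + 1) <
      x (t + 1) / 2 ^ (lev σ L R (Q t) (x (t + 1)) + 1)
  · by_cases c2 : x (t + 1) / 2 ^ (lev σ L R (Q t) (x (t + 1)) + 1) <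
        R / 2 ^ (lev σ L R (Q t) (x (t + 1)) + 1)
    · have : ∃ z ∈ Q t, z / 2 ^ (lev σ L R (Q t) (x (t + 1)) + 1) =
          x (t + 1) / 2 ^ (lev σ L R (Q t) (x (t + 1)) + 1) := by
        by_contra hc
        exact hnf ⟨c1, c2, fun z hz e => hc ⟨z, hz, e⟩⟩
      obtain ⟨z, hz, e⟩ := this
      have hne : z ≠ x (t + 1) := fun e' => hy'.2.2 z hz (by rw [e'])
      rcases lt_or_gt_of_ne hne with c | c
      · exact Or.inl (Or.inl ⟨hn, z, mem_insert_of_mem hz, c, e⟩)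
      · exact Or.inr (Or.inl ⟨hn, z, mem_insert_of_mem hz, c, e⟩)
    · exact Or.inr (Or.inl ⟨hn, R, mem_insert_self _ _, hR,
        le_antisymm (not_lt.1 c2) (mono _ hR.le)⟩)
  · exact Or.inl (Or.inl ⟨hn, L, mem_insert_self _ _, hL,
      le_antisymm (mono _ hL.le) (not_lt.1 c1)⟩)

end KBx

theorem p_KB (hITEM : S_ITEM) : S_KB := by
  intro σ L R m x c Z Q hM _ t B ht hl hKL hKR
  obtain ⟨-, -, -, a4, a5, -, a7⟩ := hITEM σ L R (Q t)
  obtain ⟨b1, -, -, b4, b5, -, b7⟩ := hITEM σ L R (Q (t + 1))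
  have h0 : fr L R (Q t) (σ + 1) (B / 2 ^ (σ + 1)) := (a7 B).1 hl
  obtain ⟨hj, hor, hmax⟩ := a4 B
  have h1 : fr L R (Q t) (lev σ L R (Q t) B) (B / 2 ^ lev σ L R (Q t) B) := by
    rcases hor with e | e
    · rw [e]; exact h0
    · exact e
  have h2 : fr L R (Q (t + 1)) (lev σ L R (Q t) B) (B / 2 ^ lev σ L R (Q t) B) := by
    refine ⟨h1.1, h1.2.1, fun z hz e => ?_⟩
    rcases mem_insert.1 (hM.sub t ht hz) with rfl | hz'
    · rcases KBx.k1 hITEM hj h1 e with k | k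
      · exact hKL k
      · exact hKR k
    · exact h1.2.2 z hz' e
  obtain ⟨hj', hor', hmax'⟩ := b4 B
  have hle := hmax' _ h2
  have heq : lev σ L R (Q (t + 1)) B = lev σ L R (Q t) B := by
    by_contra hne
    have hlt : lev σ L R (Q t) B + 1 ≤ lev σ L R (Q (t + 1)) B := by omega
    have h3 : fr L R (Q (t + 1)) (lev σ L R (Q t) B + 1) (B / 2 ^ (lev σ L R (Q t) B + 1)) := by
      rcases hor' with e | e
      · omega
      · exact b1 _ _ B hlt e
    have h4 : ∃ y ∈ Q t, y / 2 ^ (lev σ L R (Q t) B + 1) = B / 2 ^ (lev σ L R (Q t) B + 1) := by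
      by_contra hc
      have := hmax _ ⟨h3.1, h3.2.1, fun z hz e => hc ⟨z, hz, e⟩⟩
      omega
    obtain ⟨y, hy, e⟩ := h4
    have hy' : y ∈ Q t \ Q (t + 1) := mem_sdiff.2 ⟨hy, fun h => h3.2.2 y h e⟩
    have hn := KBx.near_of hITEM (by omega : σ < lev σ L R (Q t) B + 1) h3 e
    have hne' : y ≠ B := fun e' => h1.2.2 y hy (by rw [e'])
    rcases lt_or_gt_of_ne hne' with c | c
    · exact hKL (Or.inr ⟨y, hy', c, hn⟩)
    · exact hKR (Or.inr ⟨y, hy', c, hn⟩)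
  refine ⟨(b7 B).2 (b1 _ _ B hj h2), fun hB v => ?_⟩
  have hB0 : itm σ L R (Q t) B = B := hB
  have hB1 : itm σ L R (Q (t + 1)) B = B := by
    have : itm σ L R (Q (t + 1)) B = itm σ L R (Q t) B := by
      unfold itm
      rw [heq]
    rw [this, hB0]
  have e0 := (a5 B v).1
  have e1 := (b5 B v).1
  rw [hB0] at e0
  rw [hB1, heq] at e1
  show itm σ L R (Q t) v = B ↔ itm σ L R (Q (t + 1)) v = B
  rw [eq_comm, e0, ← e1, eq_comm]

end Pool.Agent.P.MP_119182_lc.GP
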