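import Pool.Agent.P.MP_119182_lc.GP.Iface
import Pool.Agent.P.MP_119182_lc.IT.TLAZY

/-! Step LAZY. -/

set_option autoImplicit false

namespace Pool.Agent.P.MP_119182_lc.GP

open Finset
open scoped Classical

theorem p_LAZY : S_LAZY := by
  intro L R m x c Z Q h
  obtain ⟨del, hd1, hd2⟩ := h.near
  choose nx hnx using IT.LAZYx.step c
  let Q' : ℕ → Finset ℤ := fun i =>
    Nat.rec (Q 0) (fun i S => nx (insert (x (i + 1)) S) (Q (i + 1))) i
  have st : ∀ i, i + 1 < m → Q i ⊆ Q' i → #(Q' i) ≤ c → Q (i + 1) ⊆ Q' (i + 1) ∧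
      Q' (i + 1) ⊆ insert (x (i + 1)) (Q' i) ∧ #(Q' (i + 1)) ≤ c ∧
      #(insert (x (i + 1)) (Q' i) \ Q' (i + 1)) ≤ 1 := fun i hi h1 h2 =>
    hnx _ _ ((h.sub i hi).trans (insert_subset_insert _ h1))
      ((card_insert_le _ _).trans (Nat.succ_le_succ h2)) (h.card _ hi)
  have inv : ∀ i < m, Q i ⊆ Q' i ∧ #(Q' i) ≤ c ∧ ∀ z ∈ Q' i, L < z ∧ z < R := by
    intro i
    induction i with
    | zero => exact fun hi => ⟨Subset.rfl, h.card 0 hi, h.mem 0 hi⟩
    | succ i ih =>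
      intro hi
      obtain ⟨a1, a2, a3⟩ := ih (by omega)
      obtain ⟨b1, b2, b3, -⟩ := st i hi a1 a2
      refine ⟨b1, b3, fun z hz => ?_⟩
      rcases mem_insert.1 (b2 hz) with rfl | k
      · exact h.mem _ hi _ (h.own _ hi)
      · exact a3 z k
  refine ⟨Q', ⟨fun i hi => (inv i hi).2.1, fun i hi => (inv i hi).2.2,
    fun i hi => (inv i hi).1 (h.own i hi),
    fun i hi => (st i hi (inv i (by omega)).1 (inv i (by omega)).2.1).2.1, del, hd1,
    fun i hi => ?_⟩, fun i hi => (st i hi (inv i (by omega)).1 (inv i (by omega)).2.1).2.2.2,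
    fun i hi => (inv i hi).1⟩
  obtain ⟨z, h1, h2⟩ := hd2 i hi
  exact ⟨z, (inv i (by omega)).1 h1, h2⟩

end Pool.Agent.P.MP_119182_lc.GP
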