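import Pool.Agent.P.MP_119182_lc.GP.Iface
import Pool.Agent.P.MP_119182_lc.IT.TLEFT

/-! Own items that die from the left. -/

set_option autoImplicit false

namespace Pool.Agent.P.MP_119182_lc.GP

open Finset
open scoped Classical
open NU (Run mr)
open IT (Marks One mq conn Kill Lives)

namespace LEFTx

theorem name {it : ℕ → ℤ → ℤ} {d : Run} {Q : ℕ → Finset ℤ} (hI : Items it) {t : ℕ} {B : ℤ}
    (hB : B ∈ own it d Q t) : it t B = B := by
  obtain ⟨u, _, rfl⟩ := mem_image.1 (mem_filter.1 hB).1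
  exact hI.idem t u

theorem cn {it : ℕ → ℤ → ℤ} {d : Run} {Q : ℕ → Finset ℤ} (hI : Items it) {t : ℕ} {B B' : ℤ}
    (hB : B ∈ own it d Q t) (hB' : B' ∈ own it d Q t) : conn (lv it d.L d.R Q) t B B' := by
  intro v h1 h2
  have h3 : it t B ≤ it t v := hI.mono t h1
  rw [name hI hB] at h3
  exact (mem_filter.1 hB').2.2 v ((mem_filter.1 hB).2.1.trans_le h3) h2

theorem one (K : ℕ) (it : ℕ → ℤ → ℤ) (d : Run) (Q : ℕ → Finset ℤ) (dt : ℕ → ℤ → ℕ)
    (sd : ℕ → ℤ → Prop) (lab : ℕ → ℤ → ℕ × ℤ) (hI : Items it)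
    (hL : Lives d.m (lv it d.L d.R Q) dt sd lab) (t : ℕ) (ht : t < d.m) :
    K * #((own it d Q t).filter fun B => sd t B) ≤
      2 * K + #(d.P t) + K * ∑ κ ∈ range K, #(ev it d Q sd lab κ t) := by
  obtain ⟨O, hO⟩ : ∃ O, O = (own it d Q t).filter fun B => sd t B := ⟨_, rfl⟩
  have hmem : ∀ B ∈ O, B ∈ own it d Q t ∧ sd t B := fun B hB => mem_filter.1 (hO ▸ hB)
  have hlv : ∀ B ∈ O, lv it d.L d.R Q t B := fun B hB =>
    cn hI (hmem B hB).1 (hmem B hB).1 B le_rfl le_rfl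
  have hlab : ∀ B ∈ O, ∀ B' ∈ O, lab t B' = lab t B := by
    intro B hB B' hB'
    rcases le_total B B' with h | h
    · exact ((hL.gap t ht _ _ (hlv B hB) (hlv B' hB') h).2
        (cn hI (hmem B hB).1 (hmem B' hB').1)).symm
    · exact (hL.gap t ht _ _ (hlv B' hB') (hlv B hB) h).2
        (cn hI (hmem B' hB').1 (hmem B hB).1)
  have hmet : ∀ B ∈ O, ∀ B' ∈ O, B' ∈ met it d Q sd lab (lab t B) t := by
    intro B hB B' hB'
    unfold met
    rw [if_pos ht]
    refine mem_filter.2 ⟨?_, hlv B' hB', (hmem B' hB').2, hlab B hB B' hB'⟩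
    exact image_subset_image (filter_subset _ _) (mem_filter.1 (hmem B' hB').1).1
  have hsub : (O.filter fun B => (∃ B0 ∈ O, B0 < B) ∧ ∃ B1 ∈ O, B < B1) ⊆
      (O.filter fun B => K ≤ #((d.P t).filter fun y => it t y = B)) ∪
        (range K).biUnion fun κ => ev it d Q sd lab κ t := by
    intro B hB
    obtain ⟨hB1, ⟨B0, h0, h0'⟩, B1, h1, h1'⟩ := mem_filter.1 hB
    rcases le_or_gt K #((d.P t).filter fun y => it t y = B) with h | h
    · exact mem_union_left _ (mem_filter.2 ⟨hB1, h⟩)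
    · refine mem_union_right _ (mem_biUnion.2 ⟨_, mem_range.2 h, ?_⟩)
      exact mem_filter.2 ⟨(hmem B hB1).1, (hmem B hB1).2, rfl,
        ⟨B0, hmet B hB1 B0 h0, h0'⟩, B1, hmet B hB1 B1 h1, h1'⟩
  have h1 := (card_le_card hsub).trans ((card_union_le _ _).trans
    (Nat.add_le_add_left card_biUnion_le _))
  have h2 := IT.LEFTx.mid O
  have h3 := IT.LEFTx.heavy K O (d.P t) (it t)
  have h4 : #O ≤ 2 + (#(O.filter fun B => K ≤ #((d.P t).filter fun y => it t y = B)) +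
      ∑ κ ∈ range K, #(ev it d Q sd lab κ t)) := by omega
  have h5 := Nat.mul_le_mul_left K h4
  rw [mul_add, mul_add] at h5
  rw [← hO]
  omega

end LEFTx

theorem p_LEFT (hEV : S_EV) : S_LEFT := by
  obtain ⟨C, hC⟩ := hEV
  intro K
  refine ⟨2 * K + 2 * K ^ 2 + C * (K ^ 2 + 1) ^ 6, ?_⟩
  intro it d Q dt sd lab hS
  rcases Nat.eq_zero_or_pos K with h0 | h0
  · simp [h0]
  have h1 := sum_le_sum fun t (ht : t ∈ range d.m) =>
    LEFTx.one K it d Q dt sd lab hS.items hS.lives t (mem_range.1 ht)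
  rw [← mul_sum, sum_add_distrib, sum_add_distrib, ← mul_sum (range d.m) _ K, sum_comm, sum_const,
    card_range, smul_eq_mul] at h1
  have h2 := sum_le_sum fun κ (_ : κ ∈ range K) => hC (K ^ 2) it d Q dt sd lab κ hS
  rw [← mul_sum, sum_const, card_range, smul_eq_mul, pow_two K, mul_assoc K K] at h2
  have h3 := Nat.le_of_mul_le_mul_left h2 h0
  have hN : d.NR = ∑ t ∈ range d.m, #(d.P t) := rfl
  rw [← hN] at h1
  rw [pow_two K]
  obtain ⟨D, hD⟩ : ∃ D, D = C * (K * K + 1) ^ 6 := ⟨_, rfl⟩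
  rw [← hD] at h3 ⊢
  have h4 : (2 * K + 2 * (K * K) + D) * (d.m + inst it d Q dt) =
      d.m * (2 * K) + 2 * (K * K) * d.m + D * inst it d Q dt +
        (D * d.m + (2 * K + 2 * (K * K)) * inst it d Q dt) := by ring
  omega

end Pool.Agent.P.MP_119182_lc.GP
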