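import Pool.Agent.P.MP_119182_lc.GP.Iface2

/-! Step LINK: all links. -/

set_option autoImplicit false

namespace Pool.Agent.P.MP_119182_lc.GP

open Finset
open scoped Classical
open NU (Run mr)
open IT (Marks One mq)

theorem p_LINK (hLP : LP.S_LP) (hCOLD : S_COLD) (hLIV : S_LIV) (hSIDE : S_SIDE) (hNPB : S_NPB)
    (hGAP : S_GAP) (hINT : IT.S_INT) (hMIRW : S_MIRW) (hLZ : IT.S_LAZY) (hEMIR : NU.S_EMIR) :
    S_LINK := by
  obtain ⟨C, hC⟩ := hLP
  obtain ⟨C1, hC1⟩ : ∃ C1, C1 = C * 800 ^ 3 := ⟨_, rfl⟩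
  obtain ⟨C2, hG⟩ := hGAP (64 * (C1 + 800))
  refine ⟨96 * (C1 + 800) + C2 + 151 * C1, fun σ J c Z d Q ok _ hJ mk one => ?_⟩
  have okm := (hEMIR d).2 ok
  obtain ⟨-, m1, m2, m3⟩ := hMIRW σ J d.L d.R d.m d.x Q
  have l1 := hC σ 800 J d (cold σ d Q) ok (hCOLD σ c Z d Q mk) hJ (by norm_num)
  have l2 := hLIV σ J c Z d Q mk
  obtain ⟨-, s1, s2⟩ := hSIDE d ok
  have s2 := s2 (cold σ d Q)
  have n1 := hNPB σ d Q ok
  have g1 := hG σ J c Z d Q ok hJ mk one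
  have g2 := hG σ J c Z d.mir (mq Q) okm (m1 hJ) (hLZ _ _ _ _ _ _ _ mk).2 (m2 one)
  have i1 := hINT (σ + 1) d ok
  have i2 := hINT (σ + 1) d.mir okm
  have k1 : (d.mir.R - d.mir.L).toNat = (d.R - d.L).toNat := by
    change (mr d.L - mr d.R).toNat = _
    unfold mr
    omega
  have k2 : d.mir.m = d.m := rfl
  have k3 : we σ J d.mir.L d.mir.R d.m d.mir.x (mq Q) = we σ J d.L d.R d.m d.x Q := m3
  rw [k1, k2] at i2
  rw [k1, k2, k3] at g2
  rw [← hC1] at l1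
  rw [sum_add_distrib, sum_add_distrib] at n1
  generalize (d.R - d.L).toNat = n at *
  generalize we σ J d.L d.R d.m d.x Q = w at *
  have w1 : (Nat.size c + 1) * (n + d.m) ≤ (σ + Nat.size c + 1) * (n + d.m) :=
    Nat.mul_le_mul_right _ (by omega)
  have w2 : (σ + 1 + 1) * (2 * n + 6 * d.m) ≤ 12 * ((σ + Nat.size c + 1) * (n + d.m)) :=
    calc (σ + 1 + 1) * (2 * n + 6 * d.m) ≤ (2 * (σ + Nat.size c + 1)) * (6 * (n + d.m)) :=
          Nat.mul_le_mul (by omega) (by omega)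
      _ = _ := by ring
  have w3 : n + d.m ≤ (σ + Nat.size c + 1) * (n + d.m) := Nat.le_mul_of_pos_left _ (by omega)
  generalize (σ + Nat.size c + 1) * (n + d.m) = W at *
  obtain ⟨X, hX⟩ : ∃ X, X = W + w := ⟨_, rfl⟩
  rw [← hX]
  have w4 : C2 * ((Nat.size c + 1) * (n + d.m) + w) ≤ C2 * X := Nat.mul_le_mul_left _ (by omega)
  generalize ∑ t ∈ range d.m, out (its σ d.L d.R Q) d t = O1 at *
  generalize ∑ t ∈ range d.m, out (its σ d.mir.L d.mir.R (mq Q)) d.mir t = O2 at *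
  generalize #(LP.NP d (cold σ d Q)) = P at *
  have w5 : (C1 + 800) * P ≤ (C1 + 800) * (24 * X + O1 + O2) := Nat.mul_le_mul_left _ (by omega)
  have w6 : C1 * (n + d.m + P + ∑ j ∈ range J, (j - σ) ^ 4 * #(LP.LV d (cold σ d Q) j)) ≤
      C1 * (P + 151 * X) := Nat.mul_le_mul_left _ (by omega)
  rw [mul_assoc] at g1 g2
  have e1 : (C1 + 800) * (24 * X + O1 + O2) =
      24 * (C1 * X) + 19200 * X + (C1 + 800) * O1 + (C1 + 800) * O2 := by ring
  have e2 : C1 * (P + 151 * X) = C1 * P + 151 * (C1 * X) := by ring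
  have e3 : (C1 + 800) * P = C1 * P + 800 * P := by ring
  have e4 : (96 * (C1 + 800) + C2 + 151 * C1) * X = 247 * (C1 * X) + 76800 * X + C2 * X := by ring
  omega

end Pool.Agent.P.MP_119182_lc.GP
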