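import Pool.Agent.P.MP_119182_lc.GP.Iface2

/-! The weighted number of lives of free cells. -/

set_option autoImplicit false

namespace Pool.Agent.P.MP_119182_lc.GP

open Finset
open scoped Classical
open NU (Run mr)
open IT (Marks One mq)

namespace LIVx

theorem geo (n : ℕ) (a : ℕ → ℕ) (ha : ∀ j, 2 ^ j * a j ≤ n) (N : ℕ) :
    2 ^ N * ∑ j ∈ range N, j ^ 4 * a j +
      (2 * N ^ 4 + 8 * N ^ 3 + 36 * N ^ 2 + 104 * N + 150) * n ≤ 2 ^ N * (150 * n) := by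
  induction N with
  | zero => simp
  | succ N ih =>
    rw [sum_range_succ]
    have h1 : N ^ 4 * (2 ^ N * a N) ≤ N ^ 4 * n := Nat.mul_le_mul_left _ (ha N)
    have e1 : 2 ^ (N + 1) * (∑ j ∈ range N, j ^ 4 * a j + N ^ 4 * a N) =
        2 * (2 ^ N * ∑ j ∈ range N, j ^ 4 * a j) + 2 * (N ^ 4 * (2 ^ N * a N)) := by ring
    have e2 : (2 * (N + 1) ^ 4 + 8 * (N + 1) ^ 3 + 36 * (N + 1) ^ 2 + 104 * (N + 1) + 150) * n +
        2 * (N ^ 4 * n) = 2 * ((2 * N ^ 4 + 8 * N ^ 3 + 36 * N ^ 2 + 104 * N + 150) * n) := by ring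
    have e3 : 2 ^ (N + 1) * (150 * n) = 2 * (2 ^ N * (150 * n)) := by ring
    omega

theorem geo2 (n : ℕ) (a : ℕ → ℕ) (ha : ∀ j, 2 ^ j * a j ≤ n) (N : ℕ) :
    ∑ j ∈ range N, j ^ 4 * a j ≤ 150 * n := by
  have h := geo n a ha N
  have h2 : 2 ^ N * ∑ j ∈ range N, j ^ 4 * a j ≤ 2 ^ N * (150 * n) :=
    le_trans (Nat.le_add_right _ _) h
  exact Nat.le_of_mul_le_mul_left h2 (Nat.pow_pos (by norm_num))

theorem we_eq (σ J : ℕ) (L R : ℤ) (m : ℕ) (x : ℕ → ℤ) (Q : ℕ → Finset ℤ) :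
    ∑ j ∈ range J, (j - σ) ^ 4 * #((range (m - 1)).filter fun t => j ∈ hit σ J L R x Q t) =
      we σ J L R m x Q := by
  unfold we
  have h1 : ∀ t ∈ range (m - 1), ∑ j ∈ hit σ J L R x Q t, (j - σ) ^ 4 =
      ∑ j ∈ range J, if j ∈ hit σ J L R x Q t then (j - σ) ^ 4 else 0 := by
    intro t _
    rw [← sum_filter]
    apply sum_congr _ (fun _ _ => rfl)
    ext j
    constructor
    · intro hj
      refine mem_filter.2 ⟨?_, hj⟩
      unfold hit at hj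
      exact mem_range.2 (mem_Ioo.1 (mem_filter.1 hj).1).2
    · intro hj
      exact (mem_filter.1 hj).2
  rw [sum_congr rfl h1, sum_comm]
  apply sum_congr rfl
  intro j _
  rw [← sum_filter, sum_const, smul_eq_mul, mul_comm]

theorem lev_bd (hEN : LP.S_EN) (σ J : ℕ) (d : Run) (Q : ℕ → Finset ℤ)
    (hC : LP.Cold σ d (cold σ d Q)) (j : ℕ) (hj : j < J) :
    #(LP.LV d (cold σ d Q) j) ≤ #(Ioo (d.L / 2 ^ j) (d.R / 2 ^ j)) +
      #((range (d.m - 1)).filter fun t => j ∈ hit σ J d.L d.R d.x Q t) := by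
  have key : ∀ p ∈ LP.LV d (cold σ d Q) j, p.1 ∈ Ioo (d.L / 2 ^ j) (d.R / 2 ^ j) ∧
      (p.2 ≠ d.m → 1 ≤ p.2 ∧ d.x p.2 / 2 ^ j = p.1 ∧
        p.2 - 1 ∈ (range (d.m - 1)).filter fun t => j ∈ hit σ J d.L d.R d.x Q t) := by
    intro p hp
    unfold LP.LV at hp
    obtain ⟨t, v, hc, hv, hT⟩ := (mem_filter.1 hp).2
    have hc' := hc
    obtain ⟨htm, hσ, hf⟩ := hc'
    obtain ⟨⟨h1, h2⟩, -, h3, -, -, -, -, h4⟩ := hEN σ d _ hC j v t htm.le
    rw [hv] at h4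
    obtain ⟨h5, h6⟩ := h4 hc
    rw [hT] at h1 h2 h3 h5 h6
    refine ⟨mem_Ioo.2 ⟨hf.1, hf.2.1⟩, fun hne => ?_⟩
    have h7 : d.x p.2 / 2 ^ j = p.1 := by
      rcases h3 with h3 | h3
      · exact absurd h3 hne
      · rw [← hv]; exact h3
    have h8 := h6 (p.2 - 1) (by omega) (by omega)
    refine ⟨by omega, h7, mem_filter.2 ⟨mem_range.2 (by omega), ?_⟩⟩
    unfold hit
    refine mem_filter.2 ⟨mem_Ioo.2 ⟨hσ, hj⟩, ?_⟩
    have e : p.2 - 1 + 1 = p.2 := by omega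
    rw [e, h7]
    exact h8.2.2
  rw [← card_filter_add_card_filter_not (s := LP.LV d (cold σ d Q) j) (fun p => p.2 = d.m)]
  apply Nat.add_le_add
  · apply card_le_card_of_injOn (fun p => p.1)
    · intro p hp
      exact mem_coe.2 (key p (mem_filter.1 (mem_coe.1 hp)).1).1
    · intro p hp q hq h
      have h1 := (mem_filter.1 (mem_coe.1 hp)).2
      have h2 := (mem_filter.1 (mem_coe.1 hq)).2
      exact Prod.ext h (h1.trans h2.symm)
  · apply card_le_card_of_injOn (fun p => p.2 - 1)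
    · intro p hp
      have h := mem_filter.1 (mem_coe.1 hp)
      exact mem_coe.2 ((key p h.1).2 h.2).2.2
    · intro p hp q hq h
      have h1 := mem_filter.1 (mem_coe.1 hp)
      have h2 := mem_filter.1 (mem_coe.1 hq)
      obtain ⟨a1, a2, -⟩ := (key p h1.1).2 h1.2
      obtain ⟨b1, b2, -⟩ := (key q h2.1).2 h2.2
      have h3 : p.2 = q.2 := by
        have h' : p.2 - 1 = q.2 - 1 := h
        omega
      refine Prod.ext ?_ h3
      rw [← a2, ← b2, h3]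

end LIVx

theorem p_LIV (hCOLD : S_COLD) (hBORN : S_BORN) (hEN : LP.S_EN) : S_LIV := by
  intro σ J c Z d Q hM
  have hC := hCOLD σ c Z d Q hM
  have h1 := LIVx.geo2 (d.R - d.L).toNat (fun j => #(Ioo (d.L / 2 ^ j) (d.R / 2 ^ j)))
    (fun j => hBORN.1 j d.L d.R) J
  rw [← LIVx.we_eq]
  refine le_trans ?_ (Nat.add_le_add_right h1 _)
  rw [← sum_add_distrib]
  apply sum_le_sum
  intro j hj
  have h2 := LIVx.lev_bd hEN σ J d Q hC j (mem_range.1 hj)
  refine le_trans (Nat.mul_le_mul_left _ h2) ?_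
  rw [mul_add]
  apply Nat.add_le_add_right
  exact Nat.mul_le_mul_right _ (Nat.pow_le_pow_left (Nat.sub_le _ _) _)

end Pool.Agent.P.MP_119182_lc.GP
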