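import Pool.Agent.P.MP_119182_lc.GP.Iface

/-! Marks of an access sequence with a good shift. -/

set_option autoImplicit false

namespace Pool.Agent.P.MP_119182_lc.GP

open Finset
open scoped Classical
open IT (Marks One)

theorem p_MARK (hWIT : S_WIT) (hAVG : S_AVG) (hLAZY : S_LAZY) : S_MARK := by
  intro n u m a y ha hy
  obtain ⟨Q, z, q1, q2, q3, q4, q5⟩ := hWIT n u m a y ha hy
  obtain ⟨T, hT⟩ : ∃ T, n + 1 < 2 ^ T := ⟨n + 1, Nat.lt_two_pow_self⟩
  let g : ℕ → ℕ → ℕ := fun s t => ∑ j ∈ Ioo u (T + 1),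
    (if (a (t + 1) + s) / 2 ^ j ≠ (z t + s) / 2 ^ j then (j - u) ^ 4 else 0)
  let F : ℕ → ℕ := fun i => (Nat.log 2 (Nat.dist (a i) (y i) / 2 ^ u + 1) + 1) ^ 5
  obtain ⟨s, hs, hg⟩ := exists_le_of_sum_le (s := range (2 ^ T))
    (f := fun s => ∑ t ∈ range (m - 1), g s t) (g := fun _ => 400 * ∑ i ∈ range m, F i)
    ⟨0, mem_range.2 (by positivity)⟩ (by
      rw [sum_comm, sum_const, card_range, smul_eq_mul]
      calc ∑ t ∈ range (m - 1), ∑ s ∈ range (2 ^ T), g s t
          ≤ ∑ t ∈ range (m - 1), 2 ^ T * (400 * F (t + 1)) := by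
            refine sum_le_sum fun t ht => (hAVG u T _ _).trans ?_
            have h1 := (q5 t (by have := mem_range.1 ht; omega)).2
            exact Nat.mul_le_mul_left _ (Nat.mul_le_mul_left _ (Nat.pow_le_pow_left
              (Nat.add_le_add_right (Nat.log_mono_right (Nat.add_le_add_right
                (Nat.div_le_div_right h1) 1)) 1) 5))
        _ ≤ _ := by
            rw [← mul_sum, ← mul_sum]
            refine Nat.mul_le_mul_left _ (Nat.mul_le_mul_left _ ?_)
            rcases m with _ | m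
            · simp
            · rw [Nat.add_sub_cancel, sum_range_succ']
              exact Nat.le_add_right _ _)
  have hs' := mem_range.1 hs
  have hM : Marks s ((s : ℤ) + n + 1) m (fun i => (a i : ℤ) + s) (2 ^ (u + 2))
      (∑ i ∈ range (m - 1), Nat.dist (a (i + 1)) (z i))
      (fun i => (Q i).image fun w : ℕ => (w : ℤ) + s) := by
    refine ⟨fun i hi => card_image_le.trans (q1 i hi), fun i hi w hw => ?_,
      fun i hi => mem_image_of_mem _ (q3 i hi), fun i hi w hw => ?_,
      fun i => Nat.dist (a (i + 1)) (z i), le_rfl, fun i hi =>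
        ⟨_, mem_image_of_mem _ (q5 i hi).1, ?_⟩⟩
    · obtain ⟨w, h1, rfl⟩ := mem_image.1 hw
      have := q2 i hi w h1
      omega
    · obtain ⟨w, h1, rfl⟩ := mem_image.1 hw
      rcases mem_insert.1 (q4 i hi h1) with h | h
      · rw [h]; exact mem_insert_self _ _
      · exact mem_insert_of_mem (mem_image_of_mem _ h)
    · simp only [Nat.dist]
      rw [abs_le]
      omega
  obtain ⟨Q', m1, m2, m3⟩ := hLAZY _ _ _ _ _ _ _ hM
  refine ⟨s, T + 1, _, Q', ?_, m1, m2, le_trans (sum_le_sum fun t ht => ?_) hg⟩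
  · have h1 : ((s + n + 1 : ℕ) : ℤ) < ((2 ^ (T + 1) : ℕ) : ℤ) := by
      rw [Nat.cast_lt, pow_succ]; omega
    push_cast at h1
    rw [Int.ediv_eq_zero_of_lt (by omega) (by omega), Int.ediv_eq_zero_of_lt (by omega) h1]
  · have h0 : t + 1 < m := by have := mem_range.1 ht; omega
    rw [hit, sum_filter]
    refine sum_le_sum fun j _ => ?_
    split_ifs with h1 h2
    · exact le_rfl
    · refine absurd ?_ (h1.2.2 _ (m3 t (by omega) (mem_image_of_mem _ (q5 t h0).1)))
      have := congrArg (Nat.cast : ℕ → ℤ) (not_not.1 h2)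
      push_cast at this
      exact this.symm
    · exact Nat.zero_le _
    · exact le_rfl

end Pool.Agent.P.MP_119182_lc.GP
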