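import Pool.Agent.P.MP_119182_lc.GP.Iface

/-! Step MIRW. -/

set_option autoImplicit false

namespace Pool.Agent.P.MP_119182_lc.GP

open Finset
open scoped Classical
open NU (Run mr)
open IT (Marks One mq conn Kill Lives)

namespace MIRWx

theorem mr_div (a : ℤ) (j : ℕ) : mr a / 2 ^ j = mr (a / 2 ^ j) := by
  have hp : (0 : ℤ) < 2 ^ j := by positivity
  have h1 := Int.emod_nonneg a hp.ne'
  have h2 := Int.emod_lt_of_pos a hp
  have h3 := Int.emod_add_mul_ediv a (2 ^ j)
  refine ((Int.ediv_emod_unique (r := 2 ^ j - 1 - a % 2 ^ j) hp).2 ⟨?_, by omega, by omega⟩).1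
  unfold mr
  linear_combination -h3

theorem inj : Function.Injective mr := fun a b e => by
  unfold mr at e
  omega

theorem frm (L R : ℤ) (W : Finset ℤ) (j : ℕ) (C : ℤ) :
    fr (mr R) (mr L) (W.image mr) j C ↔ fr L R W j (mr C) := by
  unfold fr
  rw [mr_div, mr_div]
  constructor
  · rintro ⟨h1, h2, h3⟩
    refine ⟨by unfold mr at *; omega, by unfold mr at *; omega, fun z hz e => ?_⟩
    refine h3 (mr z) (mem_image_of_mem _ hz) ?_
    rw [mr_div, e]
    unfold mr
    omega
  · rintro ⟨h1, h2, h3⟩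
    refine ⟨by unfold mr at *; omega, by unfold mr at *; omega, fun z hz e => ?_⟩
    obtain ⟨y, hy, rfl⟩ := mem_image.1 hz
    refine h3 y hy ?_
    rw [mr_div] at e
    rw [← e]
    unfold mr
    omega

end MIRWx

theorem p_MIRW : S_MIRW := by
  intro σ J L R m x Q
  refine ⟨fun W j C => MIRWx.frm L R W j C, fun e => ?_, fun h i hi => ?_, ?_⟩
  · rw [MIRWx.mr_div, MIRWx.mr_div, e]
  · have e : insert (mr (x (i + 1))) (mq Q i) \ mq Q (i + 1) =
        (insert (x (i + 1)) (Q i) \ Q (i + 1)).image mr := by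
      rw [mq, mq, ← image_insert, image_sdiff _ _ MIRWx.inj]
    show #(insert (mr (x (i + 1))) (mq Q i) \ mq Q (i + 1)) ≤ 1
    rw [e]
    exact card_image_le.trans (h i hi)
  · unfold we
    refine sum_congr rfl fun t _ => ?_
    have e : hit σ J (mr R) (mr L) (fun i => mr (x i)) (mq Q) t = hit σ J L R x Q t := by
      unfold hit
      refine filter_congr fun j _ => ?_
      have k : mr (mr (x (t + 1) / 2 ^ j)) = x (t + 1) / 2 ^ j := by
        unfold mr
        omega
      show fr (mr R) (mr L) ((Q t).image mr) j (mr (x (t + 1)) / 2 ^ j) ↔ _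
      rw [MIRWx.frm, MIRWx.mr_div, k]
    rw [e]

end Pool.Agent.P.MP_119182_lc.GP
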