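import Pool.Agent.P.MP_119182_lc.GP.Iface2

/-! Step NPB: a link without a cold least cell lies in a small cell or leaves an item. -/

set_option autoImplicit false

namespace Pool.Agent.P.MP_119182_lc.GP

open Finset
open scoped Classical
open NU (Run mr)
open IT (Marks One mq)

namespace NPBx

theorem mm (a : ℤ) : mr (mr a) = a := by unfold mr; ring

theorem minj {a b : ℤ} (h : mr a = mr b) : a = b := by unfold mr at h; omega

theorem mdiv (j : ℕ) (a : ℤ) : mr a / 2 ^ j = mr (a / 2 ^ j) := by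
  have hp : (0 : ℤ) < 2 ^ j := by positivity
  have h1 := Int.mul_ediv_add_emod a (2 ^ j)
  have h2 := Int.emod_nonneg a hp.ne'
  have h3 := Int.emod_lt_of_pos a hp
  have h4 := (Int.ediv_emod_unique (a := mr a) (b := 2 ^ j) (r := 2 ^ j - 1 - a % 2 ^ j)
    (q := mr (a / 2 ^ j)) hp).2 ⟨by unfold mr; linear_combination -h1, by omega, by omega⟩
  exact h4.1

theorem smm (j : ℕ) (a b : ℤ) : LP.sm j (mr a) (mr b) ↔ LP.sm j b a := by
  unfold LP.sm
  rw [mdiv, mdiv]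
  exact ⟨fun h => (minj h).symm, fun h => by rw [h]⟩

theorem smup {i j : ℕ} {a b : ℤ} (hij : i ≤ j) (h : a / 2 ^ i = b / 2 ^ i) :
    a / 2 ^ j = b / 2 ^ j := by
  obtain ⟨k, rfl⟩ := Nat.exists_eq_add_of_le hij
  have hp : (0 : ℤ) ≤ 2 ^ i := by positivity
  rw [pow_add, ← Int.ediv_ediv_of_nonneg hp, ← Int.ediv_ediv_of_nonneg hp, h]

theorem key (hITEM : S_ITEM) (hTWO : IT.S_TWO) (σ : ℕ) (e : Run) (W : Finset ℤ) (h : e.OK)
    (t : ℕ) (ht : t < e.m) (u : ℤ) (hu : u ∈ e.U t) :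
    IT.bl (σ + 1) (e.lp (t + 1) u) = IT.bl (σ + 1) (e.rp t u) ∨
    itm σ e.L e.R W (e.lp (t + 1) u) ≠ itm σ e.L e.R W (e.rp t u) ∨
    ∃ i, σ < i ∧ LP.sm i (e.lp (t + 1) u) (e.rp (t + 1) u) ∧
      (∀ k < i, ¬ LP.sm k (e.lp (t + 1) u) (e.rp (t + 1) u)) ∧ fr e.L e.R W i (u / 2 ^ i) := by
  obtain ⟨⟨-, hpu, -⟩, -, ⟨-, hrr, -⟩, -⟩ := hTWO e h t ht u hu
  have hu' := hu
  simp only [Run.U, Run.P, mem_filter, mem_Ioo] at hu'
  have hx := (h.step t ht).mem
  have huw : u < e.rp t u := ((h.tree t ht.le).bnd u (by omega) hu'.1.1.2).2.2.1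
  rw [hrr]
  generalize e.lp (t + 1) u = p at hpu ⊢
  generalize e.rp t u = w at huw ⊢
  obtain ⟨I1, -, -, I4, I5, -, -⟩ := hITEM σ e.L e.R W
  by_cases h1 : IT.bl (σ + 1) p = IT.bl (σ + 1) w
  · exact Or.inl h1
  by_cases h2 : itm σ e.L e.R W p = itm σ e.L e.R W w
  swap
  · exact Or.inr (Or.inl h2)
  refine Or.inr (Or.inr ?_)
  have h3 : LP.sm (lev σ e.L e.R W p) p w := ((I5 p w).1.1 h2).symm
  have hex : ∃ i, LP.sm i p w := ⟨_, h3⟩
  have hi : LP.sm (Nat.find hex) p w := Nat.find_spec hex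
  have hle : Nat.find hex ≤ lev σ e.L e.R W p := Nat.find_min' hex h3
  have hgt : σ + 1 < Nat.find hex := by
    by_contra hc
    exact h1 (smup (not_lt.1 hc) hi)
  refine ⟨Nat.find hex, by omega, hi, fun k hk => Nat.find_min hex hk, ?_⟩
  have hf : fr e.L e.R W (lev σ e.L e.R W p) (p / 2 ^ lev σ e.L e.R W p) := by
    rcases (I4 p).2.1 with hc | hc
    · omega
    · exact hc
  have hp : (0 : ℤ) < 2 ^ Nat.find hex := by positivity
  have a1 := Int.ediv_le_ediv hp hpu.le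
  have a2 := Int.ediv_le_ediv hp huw.le
  have a3 : u / 2 ^ Nat.find hex = p / 2 ^ Nat.find hex := by
    have hi' : p / 2 ^ Nat.find hex = w / 2 ^ Nat.find hex := hi
    exact le_antisymm (hi' ▸ a2) a1
  rw [a3]
  exact I1 _ _ p hle hf

end NPBx

open NPBx in
theorem p_NPB (hITEM : S_ITEM) (hSIDE : S_SIDE) (hMIRW : S_MIRW) (hTWO : IT.S_TWO)
    (hEMIR : NU.S_EMIR) : S_NPB := by
  intro σ d Q h
  have hm : d.mir.OK := (hEMIR d).2 h
  have hup := (hSIDE d h).1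
  have em : d.mir.m = d.m := rfl
  rw [← sum_add_distrib]
  unfold LP.NP
  rw [card_filter, sum_product]
  refine sum_le_sum fun t ht => ?_
  have ht' : t < d.m := mem_range.1 ht
  rw [← card_filter]
  unfold IT.int out
  refine le_trans (card_le_card (t :=
    (((d.U t).filter fun u => IT.bl (σ + 1) (d.lp (t + 1) u) = IT.bl (σ + 1) (d.rp t u)) ∪
      ((d.U t).filter fun u => its σ d.L d.R Q t (d.lp (t + 1) u) ≠ its σ d.L d.R Q t (d.rp t u))) ∪
    ((((d.mir.U t).filter fun u =>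
        IT.bl (σ + 1) (d.mir.lp (t + 1) u) = IT.bl (σ + 1) (d.mir.rp t u)) ∪
      ((d.mir.U t).filter fun u => its σ d.mir.L d.mir.R (mq Q) t (d.mir.lp (t + 1) u) ≠
        its σ d.mir.L d.mir.R (mq Q) t (d.mir.rp t u))).image mr)) fun y hy => ?_) ?_
  · obtain ⟨-, hy1, hy2⟩ := mem_filter.1 hy
    rcases ((hup t y).1 hy1).2 with hU | hU
    · refine mem_union_left _ ?_
      rcases key hITEM hTWO σ d (Q t) h t ht' y hU with k | k | ⟨i, k1, k2, k3, k4⟩
      · exact mem_union_left _ (mem_filter.2 ⟨hU, k⟩)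
      · exact mem_union_right _ (mem_filter.2 ⟨hU, k⟩)
      · exact absurd ⟨i, hy1, k2, k3, ht', k1, k4⟩ hy2
    · refine mem_union_right _ (mem_image.2 ⟨mr y, ?_, mm y⟩)
      rcases key hITEM hTWO σ d.mir (mq Q t) hm t ht' (mr y) hU with k | k | ⟨i, k1, k2, k3, k4⟩
      · exact mem_union_left _ (mem_filter.2 ⟨hU, k⟩)
      · exact mem_union_right _ (mem_filter.2 ⟨hU, k⟩)
      · have e1 : d.mir.lp (t + 1) (mr y) = mr (d.rp (t + 1) y) :=
          congrArg (fun v => mr (d.rp (t + 1) v)) (mm y)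
        have e2 : d.mir.rp (t + 1) (mr y) = mr (d.lp (t + 1) y) :=
          congrArg (fun v => mr (d.lp (t + 1) v)) (mm y)
        rw [e1, e2] at k2 k3
        have k5 := ((hMIRW σ 0 d.L d.R d.m d.x Q).1 (Q t) i (mr y / 2 ^ i)).1 k4
        rw [mdiv, mm] at k5
        exact absurd ⟨i, hy1, (smm _ _ _).1 k2, fun k hk hc => k3 k hk ((smm _ _ _).2 hc),
          ht', k1, k5⟩ hy2
  · refine le_trans (card_union_le _ _) (add_le_add (card_union_le _ _) ?_)
    exact le_trans card_image_le (card_union_le _ _)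

end Pool.Agent.P.MP_119182_lc.GP
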