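import Pool.Agent.P.MP_119182_lc.GP.Iface2
import Pool.Agent.P.MP_119182_lc.NU.Lib

/-! The two sides of a path. -/

set_option autoImplicit false

namespace Pool.Agent.P.MP_119182_lc.GP

open Finset
open scoped Classical
open NU (Run mr)

namespace SIDEx

theorem mirP (d : Run) (t : ℕ) (y : ℤ) :
    mr y ∈ d.mir.P t ↔ y < d.x t ∧ d.L < y ∧ d.x t < d.rp t y := by
  rw [Run.mem_P]
  simp only [Run.mir, NU.mr_mr, NU.mr_lt]

theorem mirU (d : Run) (t : ℕ) (y : ℤ) :
    mr y ∈ d.mir.U t ↔ (y < d.x t ∧ d.L < y ∧ d.x t < d.rp t y) ∧ d.rp (t + 1) y ≠ d.x t := by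
  rw [Run.mem_U, mirP]
  simp only [Run.mir, NU.mr_mr, NU.mr_inj, ne_eq]

theorem onP {d : Run} {t : ℕ} {y : ℤ} (h : LP.on d t y) : y ∈ d.P t ∨ mr y ∈ d.mir.P t := by
  obtain ⟨h1, h2, h3, h4, h5⟩ := h
  rw [Run.mem_P, mirP]
  omega

theorem upU {d : Run} (h : d.OK) (t : ℕ) (y : ℤ) :
    LP.up d t y ↔ t < d.m ∧ (y ∈ d.U t ∨ mr y ∈ d.mir.U t) := by
  rw [Run.mem_U, Run.mem_P, mirU]
  unfold LP.up LP.on
  refine and_congr_right fun ht => ⟨fun hy => by omega, fun hy => ?_⟩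
  obtain ⟨m1, m2⟩ := (h.step t ht).mem
  have b1 := (h.tree t ht.le).bnd y (by omega) (by omega)
  have b2 := (h.tree (t + 1) ht).bnd y (by omega) (by omega)
  omega

theorem cnt (m : ℕ) (s : Finset ℤ) (φ : ℕ → ℤ → Prop) :
    #((range m ×ˢ s).filter fun p => φ p.1 p.2) = ∑ t ∈ range m, #(s.filter (φ t)) := by
  simp only [card_filter, sum_product]

theorem inj : Function.Injective mr := fun _ _ h => NU.mr_inj.1 h

theorem mem_im {s : Finset ℤ} {y : ℤ} : y ∈ s.image mr ↔ mr y ∈ s := by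
  rw [mem_image]
  refine ⟨?_, fun h => ⟨_, h, NU.mr_mr y⟩⟩
  rintro ⟨z, hz, rfl⟩
  rwa [NU.mr_mr]

end SIDEx

open SIDEx in
theorem p_SIDE : S_SIDE := by
  intro d h
  refine ⟨upU h, ?_, fun c => ?_⟩
  · unfold LP.ON Run.NR
    rw [cnt, show d.mir.m = d.m from rfl, ← sum_add_distrib]
    refine sum_le_sum fun t _ => ?_
    rw [← card_image_of_injective (d.mir.P t) inj]
    refine (card_le_card fun y hy => ?_).trans (card_union_le _ _)
    rw [mem_union, mem_im]
    exact onP (mem_filter.1 hy).2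
  · refine le_trans ?_ ((card_le_card (s := (range d.m ×ˢ d.keys).filter fun p =>
      LP.up d p.1 p.2) fun p hp => ?_).trans (card_union_le _ _))
    · unfold Run.LamR
      rw [cnt, show d.mir.m = d.m from rfl, ← sum_add_distrib]
      refine sum_le_sum fun t ht => ?_
      rw [← card_image_of_injective (d.mir.U t) inj, ← card_union_of_disjoint]
      · refine card_le_card fun y hy => ?_
        rw [mem_union, mem_im] at hy
        have hu := (upU h t y).2 ⟨mem_range.1 ht, hy⟩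
        exact mem_filter.2 ⟨Run.mem_keys.2 ⟨hu.2.1.1, hu.2.1.2.1⟩, hu⟩
      · refine disjoint_left.2 fun y h1 h2 => ?_
        rw [mem_im, mirU] at h2
        rw [Run.mem_U, Run.mem_P] at h1
        omega
    · obtain ⟨h1, h2⟩ := mem_filter.1 hp
      rw [mem_union]
      by_cases h3 : ∃ j, LP.use d c p.1 p.2 j
      · exact Or.inl (mem_filter.2 ⟨h1, h3⟩)
      · exact Or.inr (mem_filter.2 ⟨h1, h2, h3⟩)

end Pool.Agent.P.MP_119182_lc.GP
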