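import Pool.Agent.P.MP_119182_lc.GP.Iface
import Pool.Agent.P.MP_119182_lc.UM.TREC
import Pool.Agent.P.MP_119182_lc.UM.TBIR

/-! Step WIT: marks that hold a witness for the next access. -/

set_option autoImplicit false

namespace Pool.Agent.P.MP_119182_lc.GP

open Finset
open scoped Classical

namespace WITx

/-- The keys of later accesses with a small past. -/
def E (a : ℕ → ℕ) (D m i : ℕ) : Finset ℕ :=
  ((Ioo i m).filter fun s => #((Ioc 0 s).image a) ≤ D).image a

theorem card_E (a : ℕ → ℕ) (D m i : ℕ) : #(E a D m i) ≤ D := by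
  rcases ((Ioo i m).filter fun s => #((Ioc 0 s).image a) ≤ D).eq_empty_or_nonempty with h | h
  · rw [E, h]; exact Nat.zero_le _
  refine le_trans (card_le_card (image_subset_image fun s hs => ?_))
    (mem_filter.1 (max'_mem _ h)).2
  have := (mem_Ioo.1 (mem_filter.1 hs).1).1
  exact mem_Ioc.2 ⟨by omega, le_max' _ _ hs⟩

end WITx

theorem p_WIT : S_WIT := by
  intro n u m a y ha hy
  have key : ∀ i, ∃ z, i + 1 < m → z ∈ insert (a i) (UM.Rc a (2 ^ u) i) ∪ WITx.E a (2 ^ u) m i ∧
      Nat.dist (a (i + 1)) z ≤ Nat.dist (a (i + 1)) (y (i + 1)) := fun i => by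
    by_cases hne : ((range (i + 1)).filter fun s => a s = y (i + 1)).Nonempty
    · refine ⟨y (i + 1), fun hi => ⟨mem_union_left _ ((UM.p_REC a (2 ^ u) i).2.1 ?_), le_rfl⟩⟩
      obtain ⟨l, hl, e⟩ := exists_mem_eq_sup _ hne id
      have e' : lastIdx a (i + 1) (y (i + 1)) = l := e
      obtain ⟨hl1, hl2⟩ := mem_filter.1 hl
      have h4 : #((Ioo l (i + 1)).image a) ≤ wset a (i + 1) (y (i + 1)) := by
        rw [wset, e']
        exact card_le_card (image_subset_image Ioo_subset_Ioc_self)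
      exact hl2 ▸ UM.BIRx.mem_Rc (mem_range.1 hl1) (h4.trans (hy _ hi))
    · refine ⟨a (i + 1), fun hi => ⟨mem_union_right _ (mem_image_of_mem _ (mem_filter.2
        ⟨mem_Ioo.2 ⟨Nat.lt_succ_self i, hi⟩, ?_⟩)), by rw [Nat.dist_self]; exact Nat.zero_le _⟩⟩
      have e : lastIdx a (i + 1) (y (i + 1)) = 0 := by
        rw [lastIdx, not_nonempty_iff_eq_empty.1 hne]; rfl
      have h3 := hy _ hi
      rwa [wset, e] at h3
  choose z hz using key
  refine ⟨fun i => insert (a i) (UM.Rc a (2 ^ u) i) ∪ WITx.E a (2 ^ u) m i, z, fun i _ => ?_,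
    fun i hi w hw => ?_, fun i _ => mem_union_left _ (mem_insert_self _ _), fun i _ w hw => ?_, hz⟩
  · have h1 := (UM.p_REC a (2 ^ u) i).1
    have h2 := WITx.card_E a (2 ^ u) m i
    have h3 := card_insert_le (a i) (UM.Rc a (2 ^ u) i)
    have h4 := card_union_le (insert (a i) (UM.Rc a (2 ^ u) i)) (WITx.E a (2 ^ u) m i)
    have h5 : 0 < 2 ^ u := by positivity
    beta_reduce
    rw [pow_add]
    omega
  · rcases mem_union.1 hw with hw | hw
    · rcases mem_insert.1 hw with rfl | hw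
      · exact ha i hi
      · obtain ⟨s, hs, rfl⟩ := (UM.p_REC a (2 ^ u) i).2.2 w hw
        exact ha s (hs.trans hi)
    · obtain ⟨s, hs, rfl⟩ := mem_image.1 hw
      exact ha s (mem_Ioo.1 (mem_filter.1 hs).1).2
  · rcases mem_union.1 hw with hw | hw
    · rcases mem_insert.1 hw with rfl | hw
      · exact mem_insert_self _ _
      · exact mem_insert_of_mem (mem_union_left _ ((UM.p_REC a (2 ^ u) i).2.1 hw))
    · obtain ⟨s, hs, rfl⟩ := mem_image.1 hw
      obtain ⟨s1, s2⟩ := mem_filter.1 hs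
      obtain ⟨s1, s3⟩ := mem_Ioo.1 s1
      exact mem_insert_of_mem (mem_union_right _ (mem_image_of_mem _
        (mem_filter.2 ⟨mem_Ioo.2 ⟨by omega, s3⟩, s2⟩)))

end Pool.Agent.P.MP_119182_lc.GP
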