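import Pool.Agent.P.MP_119182_lc.IT.All
import Pool.Agent.P.MP_119182_lc.LP.TSM
import Pool.Agent.P.MP_119182_lc.LP.TEN
import Pool.Agent.P.MP_119182_lc.LP.TLINK
import Pool.Agent.P.MP_119182_lc.LP.TSTEP
import Pool.Agent.P.MP_119182_lc.LP.TFRZ
import Pool.Agent.P.MP_119182_lc.LP.TGAIN
import Pool.Agent.P.MP_119182_lc.LP.TUSE
import Pool.Agent.P.MP_119182_lc.LP.TMARCH
import Pool.Agent.P.MP_119182_lc.LP.TCUT
import Pool.Agent.P.MP_119182_lc.LP.TMIR
import Pool.Agent.P.MP_119182_lc.LP.TTYP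
import Pool.Agent.P.MP_119182_lc.LP.TTOP
import Pool.Agent.P.MP_119182_lc.LP.TSYNC
import Pool.Agent.P.MP_119182_lc.LP.TONE
import Pool.Agent.P.MP_119182_lc.LP.TSTR
import Pool.Agent.P.MP_119182_lc.LP.TINS
import Pool.Agent.P.MP_119182_lc.LP.TRB
import Pool.Agent.P.MP_119182_lc.LP.TMARK
import Pool.Agent.P.MP_119182_lc.LP.TFRONT
import Pool.Agent.P.MP_119182_lc.LP.TTWO
import Pool.Agent.P.MP_119182_lc.LP.TCASE
import Pool.Agent.P.MP_119182_lc.LP.TREC
import Pool.Agent.P.MP_119182_lc.LP.TSUM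
import Pool.Agent.P.MP_119182_lc.LP.TLP
import Pool.Agent.P.MP_119182_lc.GP.TIF
import Pool.Agent.P.MP_119182_lc.GP.TDTH
import Pool.Agent.P.MP_119182_lc.GP.TFRAME
import Pool.Agent.P.MP_119182_lc.GP.TEV
import Pool.Agent.P.MP_119182_lc.GP.TLEFT
import Pool.Agent.P.MP_119182_lc.GP.TRIGHT
import Pool.Agent.P.MP_119182_lc.GP.TCLS
import Pool.Agent.P.MP_119182_lc.GP.TITEM
import Pool.Agent.P.MP_119182_lc.GP.TKA
import Pool.Agent.P.MP_119182_lc.GP.TKB
import Pool.Agent.P.MP_119182_lc.GP.TKC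
import Pool.Agent.P.MP_119182_lc.GP.TFEW
import Pool.Agent.P.MP_119182_lc.GP.TCNT
import Pool.Agent.P.MP_119182_lc.GP.TBORN
import Pool.Agent.P.MP_119182_lc.GP.TINST
import Pool.Agent.P.MP_119182_lc.GP.TGAP
import Pool.Agent.P.MP_119182_lc.GP.TLAZY
import Pool.Agent.P.MP_119182_lc.GP.TMIRW
import Pool.Agent.P.MP_119182_lc.GP.TWIT
import Pool.Agent.P.MP_119182_lc.GP.TAVG
import Pool.Agent.P.MP_119182_lc.GP.TMARK
import Pool.Agent.P.MP_119182_lc.GP.TCOLD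
import Pool.Agent.P.MP_119182_lc.GP.TLIV
import Pool.Agent.P.MP_119182_lc.GP.TSIDE
import Pool.Agent.P.MP_119182_lc.GP.TNPB
import Pool.Agent.P.MP_119182_lc.GP.TLINK
import Pool.Agent.P.MP_119182_lc.GP.TFIN

/-! All steps together. -/

set_option autoImplicit false

namespace Pool.Agent.P.MP_119182_lc.GP

namespace Ap

open LP

theorem sm : S_SM := p_SM
theorem en : S_EN := p_EN sm
theorem link : LP.S_LINK := LP.p_LINK
theorem step : S_STEP := p_STEP link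
theorem frz : S_FRZ := p_FRZ step
theorem gain : S_GAIN := p_GAIN sm link step
theorem use : S_USE := p_USE sm en link frz gain
theorem march : S_MARCH := p_MARCH sm en link frz gain use
theorem typ : S_TYP := p_TYP sm en link step gain use
theorem sync : S_SYNC := p_SYNC sm link step frz use march
theorem mark : LP.S_MARK := LP.p_MARK sm en use
theorem two : S_TWO := p_TWO sm en gain use

theorem lp : S_LP :=
  p_LP NU.a_EMIR (p_CUT sm en step gain use) (p_MIR sm use NU.a_EMIR) typ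
    (p_TOP sm en link use march) (p_ONE sm en link frz gain use march typ)
    (p_STR sm en link use march sync) (p_INS sm en link frz use march sync)
    (p_RB sm en link frz use) (p_FRONT sm en use mark)
    (p_REC sm en use mark two (p_CASE sm en gain use mark two)) p_SUM sm

end Ap

theorem a_LEFT : S_LEFT :=
  p_LEFT (p_EV (p_IF (IT.p_CM CO.coreBound)) (p_FRAME IT.p_TWO))

theorem a_INST : S_INST :=
  p_INST p_ITEM (p_KA p_ITEM) (p_KB p_ITEM) (p_KC p_ITEM) p_DTH (p_CNT p_ITEM (p_FEW p_ITEM))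
    p_BORN

theorem a_GAP : S_GAP :=
  p_GAP a_INST a_LEFT (p_RIGHT IT.p_TWO NU.a_EMIR) (p_CLS IT.p_TWO)
    (IT.p_UP IT.p_TWO (IT.p_PAIR IT.p_TWO) NU.a_EMIR) IT.p_LAZY NU.a_EMIR

theorem a_LINK : S_LINK :=
  p_LINK Ap.lp (p_COLD p_ITEM) (p_LIV (p_COLD p_ITEM) p_BORN Ap.en) p_SIDE
    (p_NPB p_ITEM p_SIDE p_MIRW IT.p_TWO NU.a_EMIR) a_GAP
    (IT.p_INT IT.p_TWO (IT.p_PAIR IT.p_TWO) NU.a_EMIR) p_MIRW IT.p_LAZY NU.a_EMIR

theorem a_FIN : S_FIN :=
  p_FIN a_LINK (p_MARK p_WIT p_AVG p_LAZY) NU.a_ALGA NU.a_BRG NU.a_TURN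

end Pool.Agent.P.MP_119182_lc.GP
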