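import Pool.Agent.P.MP_119182_lc.IT.Iface

/-! Items of variable size and the links that leave an item. -/

set_option autoImplicit false

namespace Pool.Agent.P.MP_119182_lc.GP

open Finset
open scoped Classical
open NU (Run mr)
open IT (Marks One mq conn Kill Lives)

/-! ### Frames -/

/-- The hypotheses on a frame, with a weaker convexity. -/
structure OK2 (f : IT.Fr) : Prop where
  rng : ∀ t B, f.al t B → t ≤ f.dt t B ∧ f.dt t B < f.m ∧ f.b0 < B ∧ B < f.b1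
  keep : ∀ t t' B, f.al t B → t ≤ t' → t' ≤ f.dt t B → f.al t' B ∧ f.dt t' B = f.dt t B
  mono : ∀ t B B', f.al t B → f.al t B' → B ≤ B' → f.dt t B ≤ f.dt t B'
  cvx : ∀ t t' B B' B'', f.al t B → f.al t B'' → B ≤ B' → B' ≤ B'' → t ≤ t' → t' ≤ f.dt t B →
    f.al t' B' → f.al t B'
  sub : ∀ t, ∀ B ∈ f.met t, f.al t B
  low : ∀ t, ∀ B ∈ f.ev t, B ∈ f.met t ∧ ∃ B0 ∈ f.met t, B0 < B
  on : ∀ t t', ∀ B0 ∈ f.met t, ∀ B1 ∈ f.met t, ∀ B ∈ f.met t', B0 < B → B < B1 → t < t' →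
    t' ≤ f.dt t B0 → B ∈ f.met t
  col : ∀ t t', ∀ B ∈ f.ev t, B ∈ f.ev t' → ∀ B0 ∈ f.met t, B0 < B →
    (∀ B' ∈ f.met t, B' < B → B' ≤ B0) → t < t' → f.dt t B0 < t'
  hid : ∀ z t t', ∀ B1 ∈ f.met z, ∀ B0 ∈ f.met t, ∀ B ∈ f.met t', z < t → t < t' → B0 < B →
    B < B1 → t' ≤ f.dt t B0 → t' ≤ f.dt z B1 → f.al z B → t' ≤ f.dt z B → B ∉ f.met t →
    ∃ q, z ≤ q ∧ q < t ∧ B ∈ f.met q

-- deps: IT.CM
def S_IF : Prop :=
  ∃ C : ℕ, ∀ (K : ℕ) (f : IT.Fr), OK2 f →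
    K * ∑ t ∈ range f.m, #(f.ev t) ≤ 6 * ∑ t ∈ range f.m, #(f.met t) +
      2 * K * #((range f.m).filter fun t => (f.ev t).Nonempty) + C * (K + 1) ^ 6 * f.inst

/-! ### Items given by a map that depends on the time -/

/-- `it t v` is the name of the item of the point `v` at time `t`; names are points. -/
structure Items (it : ℕ → ℤ → ℤ) : Prop where
  mono : ∀ t, Monotone (it t)
  idem : ∀ t v, it t (it t v) = it t v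

/-- The item of the point `v` holds no mark and no end. -/
def lv (it : ℕ → ℤ → ℤ) (L R : ℤ) (Q : ℕ → Finset ℤ) (t : ℕ) (v : ℤ) : Prop :=
  it t L < it t v ∧ it t v < it t R ∧ ∀ z ∈ Q t, it t z ≠ it t v

/-- During a life the item is the same set. -/
def Fib (m : ℕ) (it : ℕ → ℤ → ℤ) (l : ℕ → ℤ → Prop) (dt : ℕ → ℤ → ℕ) : Prop :=
  ∀ t < m, ∀ (t' : ℕ) (B : ℤ), l t B → it t B = B → t ≤ t' → t' ≤ dt t B →
    ∀ v, it t v = B ↔ it t' v = B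

section
variable (it : ℕ → ℤ → ℤ) (d : Run) (Q : ℕ → Finset ℤ) (sd : ℕ → ℤ → Prop)

/-- The number of lives of items. -/
noncomputable def inst (dt : ℕ → ℤ → ℕ) : ℕ :=
  #((range d.m ×ˢ Ioo d.L d.R).filter fun p =>
    it p.1 p.2 = p.2 ∧ lv it d.L d.R Q p.1 p.2 ∧ dt p.1 p.2 = p.1)

/-- Links that leave an item. -/
noncomputable def out (t : ℕ) : ℕ :=
  #((d.U t).filter fun u => it t (d.lp (t + 1) u) ≠ it t (d.rp t u))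

/-- Items of the gap next to the access that hold an upper node. -/
noncomputable def own (t : ℕ) : Finset ℤ :=
  ((d.U t).image (it t)).filter fun B =>
    it t (d.x t) < B ∧ ∀ v, it t (d.x t) < it t v → v ≤ B → lv it d.L d.R Q t v

/-- Items met that die from the left and carry the label `F`. -/
noncomputable def met (lab : ℕ → ℤ → ℕ × ℤ) (F : ℕ × ℤ) (t : ℕ) : Finset ℤ :=
  if t < d.m then ((d.P t).image (it t)).filter fun B =>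
    lv it d.L d.R Q t B ∧ sd t B ∧ lab t B = F else ∅

/-- Events of colour `κ`. -/
noncomputable def ev (lab : ℕ → ℤ → ℕ × ℤ) (κ t : ℕ) : Finset ℤ :=
  (own it d Q t).filter fun B => sd t B ∧ #((d.P t).filter fun y => it t y = B) = κ ∧
    (∃ B0 ∈ met it d Q sd lab (lab t B) t, B0 < B) ∧ ∃ B1 ∈ met it d Q sd lab (lab t B) t, B < B1

/-- The frame of label `F` and colour `κ`. -/
noncomputable def frame (dt : ℕ → ℤ → ℕ) (lab : ℕ → ℤ → ℕ × ℤ) (F : ℕ × ℤ) (κ : ℕ) : IT.Fr where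
  m := d.m
  b0 := d.L
  b1 := d.R
  al := fun t B => t < d.m ∧ it t B = B ∧ lv it d.L d.R Q t B ∧ sd t B ∧ lab t B = F
  dt := dt
  met := met it d Q sd lab F
  ev := fun t => (ev it d Q sd lab κ t).filter fun B => lab t B = F

/-- All hypotheses on the lives. -/
structure Sys (dt : ℕ → ℤ → ℕ) (lab : ℕ → ℤ → ℕ × ℤ) : Prop where
  ok : d.OK
  own : ∀ i < d.m, d.x i ∈ Q i
  items : Items it
  lives : Lives d.m (lv it d.L d.R Q) dt sd lab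
  fib : Fib d.m it (lv it d.L d.R Q) dt

end

-- deps:
def S_DTH : Prop :=
  ∀ (m : ℕ) (it : ℕ → ℤ → ℤ) (l KL KR : ℕ → ℤ → Prop), Kill m l KL KR →
    (∀ t B, t + 1 < m → l t B → it t B = B → ¬ KL t B → ¬ KR t B →
      ∀ v, it t v = B ↔ it (t + 1) v = B) →
    ∃ dt sd lab, Lives m l dt sd lab ∧ Fib m it l dt ∧
      ∀ t B, t + 1 < m → l t B → dt t B = t → KL t B ∨ KR t B

-- deps: IT.TWO
def S_FRAME : Prop :=
  ∀ (it : ℕ → ℤ → ℤ) (d : Run) (Q : ℕ → Finset ℤ) (dt : ℕ → ℤ → ℕ) (sd : ℕ → ℤ → Prop)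
    (lab : ℕ → ℤ → ℕ × ℤ) (F : ℕ × ℤ) (κ : ℕ), Sys it d Q sd dt lab →
    OK2 (frame it d Q sd dt lab F κ)

-- deps: IF FRAME
def S_EV : Prop :=
  ∃ C : ℕ, ∀ (K : ℕ) (it : ℕ → ℤ → ℤ) (d : Run) (Q : ℕ → Finset ℤ) (dt : ℕ → ℤ → ℕ)
    (sd : ℕ → ℤ → Prop) (lab : ℕ → ℤ → ℕ × ℤ) (κ : ℕ), Sys it d Q sd dt lab →
    K * ∑ t ∈ range d.m, #(ev it d Q sd lab κ t) ≤
      6 * d.NR + 2 * K * d.m + C * (K + 1) ^ 6 * inst it d Q dt

-- deps: EV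
def S_LEFT : Prop :=
  ∀ K : ℕ, ∃ C : ℕ, ∀ (it : ℕ → ℤ → ℤ) (d : Run) (Q : ℕ → Finset ℤ) (dt : ℕ → ℤ → ℕ)
    (sd : ℕ → ℤ → Prop) (lab : ℕ → ℤ → ℕ × ℤ), Sys it d Q sd dt lab →
    K * ∑ t ∈ range d.m, #((own it d Q t).filter fun B => sd t B) ≤
      7 * d.NR + C * (d.m + inst it d Q dt)

-- deps: IT.TWO EMIR
def S_RIGHT : Prop :=
  ∀ (K : ℕ) (it : ℕ → ℤ → ℤ) (d : Run) (Q : ℕ → Finset ℤ) (dt : ℕ → ℤ → ℕ)
    (sd : ℕ → ℤ → Prop) (lab : ℕ → ℤ → ℕ × ℤ), Sys it d Q sd dt lab →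
    K * ∑ t ∈ range d.m, #((own it d Q t).filter fun B => ¬ sd t B) ≤
      d.NR + K * (2 * d.m + (K + 1) * inst it d Q dt + ∑ t ∈ range d.m, IT.up d.mir (mq Q) t)

-- deps: IT.TWO
def S_CLS : Prop :=
  ∀ (it : ℕ → ℤ → ℤ) (d : Run) (Q : ℕ → Finset ℤ), d.OK → Items it → ∀ t < d.m,
    out it d t ≤ IT.up d Q t + 4 + 2 * #(own it d Q t)

/-! ### Maximal free cells -/

section
variable (σ : ℕ) (L R : ℤ) (W : Finset ℤ)

/-- The cell of level `j` and index `C` lies between the ends and holds no point of `W`. -/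
def fr (j : ℕ) (C : ℤ) : Prop := L / 2 ^ j < C ∧ C < R / 2 ^ j ∧ ∀ z ∈ W, z / 2 ^ j ≠ C

/-- The level of the item of `v`. -/
noncomputable def lev (v : ℤ) : ℕ := sSup {j | j = σ + 1 ∨ (σ < j ∧ fr L R W j (v / 2 ^ j))}

/-- The left end of the item of `v`. -/
noncomputable def itm (v : ℤ) : ℤ := v / 2 ^ lev σ L R W v * 2 ^ lev σ L R W v

/-- No end and no point of `W` lies between `a` and `b`. -/
def btw (a b : ℤ) : Prop := L < min a b ∧ max a b < R ∧ ∀ z ∈ W, z < min a b ∨ max a b < z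

/-- The item of `y` is free and `v` lies in its parent cell, in the gap of `y`. -/
def near (y v : ℤ) : Prop :=
  fr L R W (σ + 1) (y / 2 ^ (σ + 1)) ∧
    v / 2 ^ (lev σ L R W y + 1) = y / 2 ^ (lev σ L R W y + 1) ∧ btw L R W v y

end

section
variable (σ J : ℕ) (L R : ℤ) (m : ℕ) (x : ℕ → ℤ) (Q : ℕ → Finset ℤ)

/-- The items at all times. -/
noncomputable def its (t : ℕ) (v : ℤ) : ℤ := itm σ L R (Q t) v

/-- Points killed from the left. -/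
def KL (t : ℕ) (v : ℤ) : Prop :=
  (near σ L R (Q t) (x (t + 1)) v ∧ ∃ z ∈ insert L (Q t), z < x (t + 1) ∧
    z / 2 ^ (lev σ L R (Q t) (x (t + 1)) + 1) = x (t + 1) / 2 ^ (lev σ L R (Q t) (x (t + 1)) + 1)) ∨
  ∃ y ∈ Q t \ Q (t + 1), y < v ∧ near σ L R (Q (t + 1)) y v

/-- Points killed from the right. -/
def KR (t : ℕ) (v : ℤ) : Prop :=
  (near σ L R (Q t) (x (t + 1)) v ∧ ∃ z ∈ insert R (Q t), x (t + 1) < z ∧
    z / 2 ^ (lev σ L R (Q t) (x (t + 1)) + 1) = x (t + 1) / 2 ^ (lev σ L R (Q t) (x (t + 1)) + 1)) ∨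
  ∃ y ∈ Q t \ Q (t + 1), v < y ∧ near σ L R (Q (t + 1)) y v

/-- The levels of the free cells that hold the next access. -/
noncomputable def hit (t : ℕ) : Finset ℕ :=
  (Ioo σ J).filter fun j => fr L R (Q t) j (x (t + 1) / 2 ^ j)

/-- The number of cells that become free around a deleted mark. -/
noncomputable def born (t : ℕ) : ℕ :=
  ∑ y ∈ Q t \ Q (t + 1), #((Ioo σ J).filter fun j => fr L R (Q (t + 1)) j (y / 2 ^ j))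

/-- The weight of the free cells that are hit. -/
noncomputable def we : ℕ := ∑ t ∈ range (m - 1), ∑ j ∈ hit σ J L R x Q t, (j - σ) ^ 4

end

-- deps:
def S_ITEM : Prop :=
  ∀ (σ : ℕ) (L R : ℤ) (W : Finset ℤ),
    (∀ (j j' : ℕ) (v : ℤ), j ≤ j' → fr L R W j' (v / 2 ^ j') → fr L R W j (v / 2 ^ j)) ∧
    (∀ (j J : ℕ) (C : ℤ), L / 2 ^ J = R / 2 ^ J → fr L R W j C → j < J) ∧
    (∀ (j : ℕ) (v : ℤ), fr L R W j (v / 2 ^ j) → L < v ∧ v < R) ∧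
    (∀ v, σ < lev σ L R W v ∧
      (lev σ L R W v = σ + 1 ∨ fr L R W (lev σ L R W v) (v / 2 ^ lev σ L R W v)) ∧
      ∀ j, fr L R W j (v / 2 ^ j) → j ≤ lev σ L R W v) ∧
    (∀ v w, (itm σ L R W v = itm σ L R W w ↔ w / 2 ^ lev σ L R W v = v / 2 ^ lev σ L R W v) ∧
      (itm σ L R W v = itm σ L R W w → lev σ L R W v = lev σ L R W w)) ∧
    (Monotone (itm σ L R W) ∧ ∀ v, itm σ L R W (itm σ L R W v) = itm σ L R W v) ∧
    ∀ v, (itm σ L R W L < itm σ L R W v ∧ itm σ L R W v < itm σ L R W R ∧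
      ∀ z ∈ W, itm σ L R W z ≠ itm σ L R W v) ↔ fr L R W (σ + 1) (v / 2 ^ (σ + 1))

-- deps: ITEM
/-- The rules kill a first part and a last part of each gap. -/
def S_KA : Prop :=
  ∀ (σ : ℕ) (L R : ℤ) (x : ℕ → ℤ) (Q : ℕ → Finset ℤ) (t : ℕ) (B B' : ℤ), B ≤ B' →
    conn (lv (its σ L R Q) L R Q) t B B' →
    (KL σ L R x Q t B' → KL σ L R x Q t B) ∧ (KR σ L R x Q t B → KR σ L R x Q t B')

-- deps: ITEM
/-- A point that is not killed keeps its level. -/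
def S_KB : Prop :=
  ∀ (σ : ℕ) (L R : ℤ) (m : ℕ) (x : ℕ → ℤ) (c Z : ℕ) (Q : ℕ → Finset ℤ), Marks L R m x c Z Q →
    One m x Q → ∀ t B, t + 1 < m → lv (its σ L R Q) L R Q t B → ¬ KL σ L R x Q t B →
    ¬ KR σ L R x Q t B → lv (its σ L R Q) L R Q (t + 1) B ∧
      (its σ L R Q t B = B → ∀ v, its σ L R Q t v = B ↔ its σ L R Q (t + 1) v = B)

-- deps: ITEM
/-- Points that are not killed stay in one gap or in different gaps. -/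
def S_KC : Prop :=
  ∀ (σ : ℕ) (L R : ℤ) (m : ℕ) (x : ℕ → ℤ) (c Z : ℕ) (Q : ℕ → Finset ℤ), Marks L R m x c Z Q →
    One m x Q → ∀ t B B', t + 1 < m → B ≤ B' → lv (its σ L R Q) L R Q t B →
    ¬ KR σ L R x Q t B ∧ ¬ KL σ L R x Q t B → lv (its σ L R Q) L R Q t B' →
    ¬ KL σ L R x Q t B' ∧ ¬ KR σ L R x Q t B' →
    (conn (lv (its σ L R Q) L R Q) t B B' ↔ conn (lv (its σ L R Q) L R Q) (t + 1) B B')

-- deps: ITEM
/-- At most two items of each level lie in one gap. -/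
def S_FEW : Prop :=
  ∀ (σ δ : ℕ) (L R y : ℤ) (W S : Finset ℤ), ¬ fr L R W (δ + 1) (y / 2 ^ (δ + 1)) →
    (∀ B ∈ S, itm σ L R W B = B ∧ fr L R W (σ + 1) (B / 2 ^ (σ + 1)) ∧
      B / 2 ^ (δ + 1) = y / 2 ^ (δ + 1)) →
    (∀ B ∈ S, ∀ B' ∈ S, btw L R W B B') → #S ≤ 2 * (δ - σ)

-- deps: ITEM FEW
def S_CNT : Prop :=
  ∀ (σ J : ℕ) (L R : ℤ) (m : ℕ) (x : ℕ → ℤ) (c Z : ℕ) (Q : ℕ → Finset ℤ), L / 2 ^ J = R / 2 ^ J →
    Marks L R m x c Z Q → One m x Q → ∀ t, t + 1 < m →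
    #((Ioo L R).filter fun B => its σ L R Q t B = B ∧ lv (its σ L R Q) L R Q t B ∧
      (KL σ L R x Q t B ∨ KR σ L R x Q t B)) ≤ 2 * #(hit σ J L R x Q t) + 4 * born σ J L R Q t

-- deps:
def S_BORN : Prop :=
  (∀ (j : ℕ) (L R : ℤ), 2 ^ j * #(Ioo (L / 2 ^ j) (R / 2 ^ j)) ≤ (R - L).toNat) ∧
  ∀ (σ J : ℕ) (L R : ℤ) (m : ℕ) (x : ℕ → ℤ) (c Z : ℕ) (Q : ℕ → Finset ℤ), Marks L R m x c Z Q →
    One m x Q → ∑ t ∈ range (m - 1), born σ J L R Q t ≤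
      (R - L).toNat + ∑ t ∈ range (m - 1), #(hit σ J L R x Q t)

-- deps: ITEM KA KB KC DTH CNT BORN
def S_INST : Prop :=
  ∀ (σ J c Z : ℕ) (d : Run) (Q : ℕ → Finset ℤ), d.OK → d.L / 2 ^ J = d.R / 2 ^ J →
    Marks d.L d.R d.m d.x c Z Q → One d.m d.x Q →
    ∃ dt sd lab, Sys (its σ d.L d.R Q) d Q sd dt lab ∧
      inst (its σ d.L d.R Q) d Q dt ≤ 5 * (d.R - d.L).toNat + 6 * we σ J d.L d.R d.m d.x Q

-- deps: INST LEFT RIGHT CLS IT.UP IT.LAZY EMIR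
def S_GAP : Prop :=
  ∀ K : ℕ, ∃ C : ℕ, ∀ (σ J c Z : ℕ) (d : Run) (Q : ℕ → Finset ℤ), d.OK →
    d.L / 2 ^ J = d.R / 2 ^ J → Marks d.L d.R d.m d.x c Z Q → One d.m d.x Q →
    K * ∑ t ∈ range d.m, out (its σ d.L d.R Q) d t ≤ 16 * d.NR +
      C * ((Nat.size c + 1) * ((d.R - d.L).toNat + d.m) + we σ J d.L d.R d.m d.x Q)

/-! ### Marks of an access sequence -/

-- deps:
def S_LAZY : Prop :=
  ∀ (L R : ℤ) (m : ℕ) (x : ℕ → ℤ) (c Z : ℕ) (Q : ℕ → Finset ℤ), Marks L R m x c Z Q →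
    ∃ Q', Marks L R m x c Z Q' ∧ One m x Q' ∧ ∀ i < m, Q i ⊆ Q' i

-- deps:
def S_MIRW : Prop :=
  ∀ (σ J : ℕ) (L R : ℤ) (m : ℕ) (x : ℕ → ℤ) (Q : ℕ → Finset ℤ),
    (∀ (W : Finset ℤ) (j : ℕ) (C : ℤ), fr (mr R) (mr L) (W.image mr) j C ↔ fr L R W j (mr C)) ∧
    (L / 2 ^ J = R / 2 ^ J → mr R / 2 ^ J = mr L / 2 ^ J) ∧
    (One m x Q → One m (fun i => mr (x i)) (mq Q)) ∧
    we σ J (mr R) (mr L) m (fun i => mr (x i)) (mq Q) = we σ J L R m x Q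

-- deps: (UM.q_REC, UM.BIRx.mem_Rc)
def S_WIT : Prop :=
  ∀ (n u m : ℕ) (a y : ℕ → ℕ), (∀ i < m, 1 ≤ a i ∧ a i ≤ n) → (∀ i < m, wset a i (y i) ≤ 2 ^ u) →
    ∃ (Q : ℕ → Finset ℕ) (z : ℕ → ℕ), (∀ i < m, #(Q i) ≤ 2 ^ (u + 2)) ∧
      (∀ i < m, ∀ w ∈ Q i, 1 ≤ w ∧ w ≤ n) ∧ (∀ i < m, a i ∈ Q i) ∧
      (∀ i, i + 1 < m → Q (i + 1) ⊆ insert (a (i + 1)) (Q i)) ∧
      ∀ i, i + 1 < m → z i ∈ Q i ∧ Nat.dist (a (i + 1)) (z i) ≤ Nat.dist (a (i + 1)) (y (i + 1))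

-- deps: (NU.Avg.split)
def S_AVG : Prop :=
  ∀ σ T y z : ℕ, ∑ s ∈ range (2 ^ T), ∑ j ∈ Ioo σ (T + 1),
    (if (y + s) / 2 ^ j ≠ (z + s) / 2 ^ j then (j - σ) ^ 4 else 0) ≤
      2 ^ T * (400 * (Nat.log 2 (Nat.dist y z / 2 ^ σ + 1) + 1) ^ 5)

-- deps: WIT AVG LAZY
def S_MARK : Prop :=
  ∀ (n u m : ℕ) (a y : ℕ → ℕ), (∀ i < m, 1 ≤ a i ∧ a i ≤ n) → (∀ i < m, wset a i (y i) ≤ 2 ^ u) →
    ∃ (s J Z : ℕ) (Q : ℕ → Finset ℤ), (s : ℤ) / 2 ^ J = ((s : ℤ) + n + 1) / 2 ^ J ∧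
      Marks s ((s : ℤ) + n + 1) m (fun i => (a i : ℤ) + s) (2 ^ (u + 2)) Z Q ∧
      One m (fun i => (a i : ℤ) + s) Q ∧
      we u J s ((s : ℤ) + n + 1) m (fun i => (a i : ℤ) + s) Q ≤
        400 * ∑ i ∈ range m, (Nat.log 2 (Nat.dist (a i) (y i) / 2 ^ u + 1) + 1) ^ 5

/-! ### The end -/

-- deps: see GP/Iface2.lean
def S_LINK : Prop :=
  ∃ C : ℕ, ∀ (σ J c Z : ℕ) (d : Run) (Q : ℕ → Finset ℤ), d.OK → d.L < d.R →
    d.L / 2 ^ J = d.R / 2 ^ J → Marks d.L d.R d.m d.x c Z Q → One d.m d.x Q →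
    100 * (d.LamR + d.mir.LamR) ≤ d.NR + d.mir.NR +
      C * ((σ + Nat.size c + 1) * ((d.R - d.L).toNat + d.m) + we σ J d.L d.R d.m d.x Q)

-- deps: LINK MARK ALGA BRG TURN
def S_FIN : Prop :=
  ∃ C : ℕ, ∀ (n u m : ℕ) (T : BT) (a y : ℕ → ℕ), T.keys = List.range' 1 n →
    (∀ i < m, 1 ≤ a i ∧ a i ≤ n) → (∀ i < m, wset a i (y i) ≤ 2 ^ u) →
    cost T ((List.range m).map a) ≤ C * ((u + 1) * (n + m) +
      ∑ i ∈ range m, Nat.log 2 (Nat.dist (a i) (y i) / 2 ^ u + 1) ^ 5)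

end Pool.Agent.P.MP_119182_lc.GP
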