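import Pool.Agent.P.MP_119182_lc.GP.Iface
import Pool.Agent.P.MP_119182_lc.LP.Iface

/-! The free cells as a family of cold cells. -/

set_option autoImplicit false

namespace Pool.Agent.P.MP_119182_lc.GP

open Finset
open scoped Classical
open NU (Run mr)
open IT (Marks One mq)

/-- The cold cells: free cells of level above `σ`. -/
def cold (σ : ℕ) (d : Run) (Q : ℕ → Finset ℤ) (t j : ℕ) (C : ℤ) : Prop :=
  t < d.m ∧ σ < j ∧ fr d.L d.R (Q t) j C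

-- deps: ITEM
def S_COLD : Prop :=
  ∀ (σ c Z : ℕ) (d : Run) (Q : ℕ → Finset ℤ), Marks d.L d.R d.m d.x c Z Q →
    LP.Cold σ d (cold σ d Q)

-- deps: COLD BORN LP.EN
def S_LIV : Prop :=
  ∀ (σ J c Z : ℕ) (d : Run) (Q : ℕ → Finset ℤ), Marks d.L d.R d.m d.x c Z Q →
    ∑ j ∈ range J, (j - σ) ^ 4 * #(LP.LV d (cold σ d Q) j) ≤
      150 * (d.R - d.L).toNat + we σ J d.L d.R d.m d.x Q

-- deps:
def S_SIDE : Prop :=
  ∀ d : Run, d.OK →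
    (∀ t y, LP.up d t y ↔ t < d.m ∧ (y ∈ d.U t ∨ mr y ∈ d.mir.U t)) ∧
    #(LP.ON d) ≤ d.NR + d.mir.NR ∧
    ∀ c : ℕ → ℕ → ℤ → Prop, d.LamR + d.mir.LamR ≤ #(LP.PL d c) + #(LP.NP d c)

-- deps: ITEM SIDE MIRW IT.TWO EMIR
def S_NPB : Prop :=
  ∀ (σ : ℕ) (d : Run) (Q : ℕ → Finset ℤ), d.OK →
    #(LP.NP d (cold σ d Q)) ≤
      ∑ t ∈ range d.m, (IT.int (σ + 1) d t + out (its σ d.L d.R Q) d t) +
      ∑ t ∈ range d.m, (IT.int (σ + 1) d.mir t + out (its σ d.mir.L d.mir.R (mq Q)) d.mir t)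

end Pool.Agent.P.MP_119182_lc.GP
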