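import Pool.Agent.P.MP_119182_lc.GP.Iface2

/-! Step COLD. -/

set_option autoImplicit false

namespace Pool.Agent.P.MP_119182_lc.GP

open Finset

theorem p_COLD (hITEM : S_ITEM) : S_COLD := by
  intro σ c Z d Q h
  refine ⟨fun t j C k => ⟨k.1, k.2.2.2.2 _ (h.own t k.1)⟩, fun t j C k => k.2.1,
    fun t j j' v h1 h2 k => ⟨k.1, h1, (hITEM σ d.L d.R (Q t)).1 j j' v h2 k.2.2⟩,
    fun t j C k h1 h2 => ⟨h1, k.2.1, k.2.2.1, k.2.2.2.1, fun z hz => ?_⟩⟩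
  rcases mem_insert.1 (h.sub t h1 hz) with rfl | hz
  · exact h2
  · exact k.2.2.2.2 z hz

end Pool.Agent.P.MP_119182_lc.GP
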