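import Pool.Agent.P.MP_119182_lc.GP.Iface

/-! Points that are not killed stay in one gap or in different gaps. -/

set_option autoImplicit false

namespace Pool.Agent.P.MP_119182_lc.GP

open Finset
open scoped Classical
open NU (Run mr)
open IT (Marks One mq conn Kill Lives)

namespace KCx

theorem dmono (j : ℕ) {a b : ℤ} (h : a ≤ b) : a / 2 ^ j ≤ b / 2 ^ j :=
  Int.ediv_le_ediv (by positivity) h

theorem dlt (j : ℕ) {a b : ℤ} (h : a / 2 ^ j < b / 2 ^ j) : a < b := by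
  by_contra hc
  have := dmono j (not_lt.mp hc)
  omega

theorem dup {j k : ℕ} (hjk : j ≤ k) {a b : ℤ} (h : a / 2 ^ j = b / 2 ^ j) :
    a / 2 ^ k = b / 2 ^ k := by
  obtain ⟨e, rfl⟩ := Nat.exists_eq_add_of_le hjk
  have h1 : ∀ c : ℤ, c / 2 ^ (j + e) = c / 2 ^ j / 2 ^ e := fun c => by
    rw [pow_add, Int.ediv_ediv_of_nonneg (by positivity)]
  rw [h1, h1, h]

/-- A point of a free interval decides which end of the interval is near `y`. -/
theorem core (hITEM : S_ITEM) (σ : ℕ) (L R : ℤ) (W : Finset ℤ) (y w B B' : ℤ) (h1 : B ≤ w)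
    (h2 : w ≤ B') (hF : ∀ v, B ≤ v → v ≤ B' → fr L R W (σ + 1) (v / 2 ^ (σ + 1)))
    (hy : y / 2 ^ (σ + 1) = w / 2 ^ (σ + 1)) :
    (near σ L R W y B ∧ ∃ z ∈ insert L W, z < y ∧
      z / 2 ^ (lev σ L R W y + 1) = y / 2 ^ (lev σ L R W y + 1)) ∨
    (near σ L R W y B' ∧ ∃ z ∈ insert R W, y < z ∧
      z / 2 ^ (lev σ L R W y + 1) = y / 2 ^ (lev σ L R W y + 1)) := by
  obtain ⟨-, -, i3, i4, -⟩ := hITEM σ L R W
  have hw := hF w h1 h2
  have hFy : fr L R W (σ + 1) (y / 2 ^ (σ + 1)) := hy ▸ hw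
  obtain ⟨yL, yR⟩ := i3 _ _ hFy
  obtain ⟨BL, BR⟩ := i3 _ _ (hF B le_rfl (h1.trans h2))
  obtain ⟨B'L, B'R⟩ := i3 _ _ (hF B' (h1.trans h2) le_rfl)
  obtain ⟨hs, -, hmax⟩ := i4 y
  set l := lev σ L R W y with hl
  have hwl : w / 2 ^ (l + 1) = y / 2 ^ (l + 1) := dup (by omega) hy.symm
  have hW : ∀ z ∈ W, z < B ∨ B' < z := fun z hz => by
    by_contra hc
    push Not at hc
    exact (hF z hc.1 hc.2).2.2 z hz rfl
  have hWy : ∀ z ∈ W, (z < y ∧ z < w) ∨ (y < z ∧ w < z) := fun z hz => by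
    have h3 := hFy.2.2 z hz
    rcases lt_or_gt_of_ne h3 with h4 | h4
    · exact Or.inl ⟨dlt _ h4, dlt _ (hy ▸ h4)⟩
    · exact Or.inr ⟨dlt _ h4, dlt _ (hy ▸ h4)⟩
  have hb : btw L R W B y := by
    refine ⟨lt_min BL yL, max_lt BR yR, fun z hz => ?_⟩
    have h3 := hW z hz
    have h4 := hWy z hz
    rw [lt_min_iff, max_lt_iff]
    omega
  have hb' : btw L R W B' y := by
    refine ⟨lt_min B'L yL, max_lt B'R yR, fun z hz => ?_⟩
    have h3 := hW z hz
    have h4 := hWy z hz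
    rw [lt_min_iff, max_lt_iff]
    omega
  have left : ∀ z, z < B → z / 2 ^ (l + 1) = y / 2 ^ (l + 1) → near σ L R W y B := by
    intro z hz he
    refine ⟨hFy, ?_, hb⟩
    have a1 := dmono (l + 1) hz.le
    have a2 := dmono (l + 1) h1
    rw [← hl]
    omega
  have right : ∀ z, B' < z → z / 2 ^ (l + 1) = y / 2 ^ (l + 1) → near σ L R W y B' := by
    intro z hz he
    refine ⟨hFy, ?_, hb'⟩
    have a1 := dmono (l + 1) hz.le
    have a2 := dmono (l + 1) h2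
    rw [← hl]
    omega
  have hn : ¬ fr L R W (l + 1) (y / 2 ^ (l + 1)) := fun h => by
    have := hmax _ h
    omega
  by_cases e1 : L / 2 ^ (l + 1) = y / 2 ^ (l + 1)
  · exact Or.inl ⟨left L BL e1, L, mem_insert_self _ _, yL, e1⟩
  by_cases e2 : R / 2 ^ (l + 1) = y / 2 ^ (l + 1)
  · exact Or.inr ⟨right R B'R e2, R, mem_insert_self _ _, yR, e2⟩
  have a1 := dmono (l + 1) yL.le
  have a2 := dmono (l + 1) yR.le
  have hz : ∃ z ∈ W, z / 2 ^ (l + 1) = y / 2 ^ (l + 1) := by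
    by_contra hc
    push Not at hc
    exact hn ⟨by omega, by omega, hc⟩
  obtain ⟨z, hz, he⟩ := hz
  have h3 := hW z hz
  rcases hWy z hz with h4 | h4
  · exact Or.inl ⟨left z (by omega) he, z, mem_insert_of_mem hz, h4.1, he⟩
  · exact Or.inr ⟨right z (by omega) he, z, mem_insert_of_mem hz, h4.1, he⟩

end KCx

theorem p_KC (hITEM : S_ITEM) : S_KC := by
  intro σ L R m x c Z Q hM _ t B B' ht hB hl hK hl' hK'
  have e : ∀ s v, lv (its σ L R Q) L R Q s v ↔ fr L R (Q s) (σ + 1) (v / 2 ^ (σ + 1)) :=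
    fun s v => (hITEM σ L R (Q s)).2.2.2.2.2.2 v
  constructor
  · intro hc w h1 h2
    have hw := (e t w).mp (hc w h1 h2)
    refine (e _ w).mpr ⟨hw.1, hw.2.1, fun y hy he => ?_⟩
    have hy1 : y = x (t + 1) := by
      rcases mem_insert.mp (hM.sub t ht hy) with h | h
      · exact h
      · exact absurd he (hw.2.2 y h)
    subst hy1
    rcases KCx.core hITEM σ L R (Q t) _ w B B' h1 h2 (fun v a b => (e t v).mp (hc v a b)) he with
      h | h
    · exact hK.2 (Or.inl h)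
    · exact hK'.2 (Or.inl h)
  · intro hc w h1 h2
    have hw := (e _ w).mp (hc w h1 h2)
    refine (e t w).mpr ⟨hw.1, hw.2.1, fun y hy he => ?_⟩
    have hy1 : y ∈ Q t \ Q (t + 1) := mem_sdiff.mpr ⟨hy, fun h => hw.2.2 y h he⟩
    have a1 := KCx.dmono (σ + 1) h1
    have a2 := KCx.dmono (σ + 1) h2
    have b1 := ((e t B).mp hl).2.2 y hy
    have b2 := ((e t B').mp hl').2.2 y hy
    rcases KCx.core hITEM σ L R (Q (t + 1)) y w B B' h1 h2
      (fun v a b => (e _ v).mp (hc v a b)) he with h | h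
    · exact hK.1 (Or.inr ⟨y, hy1, KCx.dlt (σ + 1) (by omega), h.1⟩)
    · exact hK'.1 (Or.inr ⟨y, hy1, KCx.dlt (σ + 1) (by omega), h.1⟩)

end Pool.Agent.P.MP_119182_lc.GP
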